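import Pool.Agent.H29.FK.Gibbs

set_option autoImplicit false

/-! Two infinite clusters near a hyperplane: definitions and closed statements of the modules. -/

namespace Pool.Agent.H29.HP

open MeasureTheory Pool.Agent.H29.FK

variable {d : ℕ}

theorem nn_add (z : Fin d → ℤ) (e : Ed d) : NN (Sym2.map (fun x => x + z) e.1) := by
  obtain ⟨x, i, h⟩ := e.2
  refine ⟨x + z, i, ?_⟩
  rw [h, Sym2.map_mk]
  congr 1
  ext; simp [add_right_comm]

/-- the edge `e + z` -/
def shE (z : Fin d → ℤ) (e : Ed d) : Ed d := ⟨Sym2.map (fun x => x + z) e.1, nn_add z e⟩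

/-- the translated configuration `(sh z ω) e = ω (e + z)` -/
def sh (z : Fin d → ℤ) (ω : Cfg d) : Cfg d := fun e => ω (shE z e)

/-- uniform insertion tolerance -/
def IT (ε : ℝ) (μ : Measure (Cfg d)) : Prop :=
  ∀ e : Ed d, ∀ B : Set (Cfg d), MeasurableSet B → Det {f | f ≠ e} B →
    ENNReal.ofReal ε * μ B ≤ μ (B ∩ {ω | ω e = true})

/-- invariance under all translations which do not change the coordinate `j` -/
def HInv (j : Fin d) (μ : Measure (Cfg d)) : Prop :=
  ∀ z : Fin d → ℤ, z j = 0 → μ.map (sh z) = μ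

/-- two distinct infinite clusters meet the box `Λ_K(x)` -/
def Two (K : ℕ) (x : Fin d → ℤ) : Set (Cfg d) :=
  {ω | ∃ u v : Fin d → ℤ, (∀ i, |u i - x i| ≤ K) ∧ (∀ i, |v i - x i| ≤ K) ∧
    (clus ω u).Infinite ∧ (clus ω v).Infinite ∧ clus ω u ≠ clus ω v}

/-- at most one infinite cluster -/
def One (μ : Measure (Cfg d)) : Prop :=
  ∀ᵐ ω ∂μ, ∀ u v : Fin d → ℤ, (clus ω u).Infinite → (clus ω v).Infinite → clus ω u = clus ω v

/-- at most two infinite clusters -/
def AtMostTwo (μ : Measure (Cfg d)) : Prop :=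
  ∀ᵐ ω ∂μ, ∀ u v w : Fin d → ℤ, (clus ω u).Infinite → (clus ω v).Infinite → (clus ω w).Infinite →
    clus ω u = clus ω v ∨ clus ω u = clus ω w ∨ clus ω v = clus ω w

/-- the box `0 ≤ z i < n` (`i ≠ j`), `z j = 0` in the hyperplane -/
noncomputable def hb (j : Fin d) (n : ℕ) : Finset (Fin d → ℤ) :=
  Fintype.piFinset (fun i => if i = j then ({0} : Finset ℤ) else Finset.Ico (0 : ℤ) n)

/-- N3 (helper29): no three infinite clusters. -/
def N3 : Prop := ∀ (d : ℕ) (j : Fin d) (ε : ℝ) (μ : Measure (Cfg d)), 2 ≤ d → 0 < ε →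
  IsProbabilityMeasure μ → IT ε μ → HInv j μ → AtMostTwo μ

/-- N2: from two to one, for one measure. -/
def N2 : Prop := ∀ (d : ℕ) (j : Fin d) (ε : ℝ) (μ : Measure (Cfg d)), 2 ≤ d → 0 < ε →
  IsProbabilityMeasure μ → IT ε μ → HInv j μ → AtMostTwo μ → One μ

/-- CP (compactness): from the uniqueness for invariant measures to a uniform bound for all
insertion tolerant measures. -/
def CP : Prop := ∀ (d : ℕ) (j : Fin d) (ε : ℝ), 2 ≤ d → 0 < ε →
  (∀ μ : Measure (Cfg d), IsProbabilityMeasure μ → IT ε μ → HInv j μ → One μ) →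
  ∀ (K : ℕ) (η : ℝ), 0 < η → ∃ n0 : ℕ, ∀ n ≥ n0, ∀ φ : Measure (Cfg d), IsProbabilityMeasure φ →
    IT ε φ → ∀ x0 : Fin d → ℤ,
    ∑ z ∈ hb j n, φ (Two K (x0 + z)) ≤ ENNReal.ofReal (η * (n : ℝ) ^ (d - 1))

/-- insertion of finitely many edges -/
theorem IT.insert {ε : ℝ} {μ : Measure (Cfg d)} (h : IT ε μ) (F : Finset (Ed d))
    {B : Set (Cfg d)} (hB : MeasurableSet B) (hD : Det {f | f ∉ F} B) :
    ENNReal.ofReal ε ^ F.card * μ B ≤ μ (B ∩ {ω | ∀ e ∈ F, ω e = true}) := by
  classical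
  induction F using Finset.induction_on generalizing B with
  | empty => simp
  | @insert e F he ih =>
    have h1 : ENNReal.ofReal ε * μ B ≤ μ (B ∩ {ω | ω e = true}) :=
      h e B hB (hD.mono (off_ne e F))
    have h2 := ih (B := B ∩ {ω | ω e = true}) (hB.inter (meas_edge e true))
      ((hD.mono (off_mono e F)).inter (det_edge (by simpa using he) true))
    rw [Finset.card_insert_of_notMem he, pow_succ, mul_assoc]
    calc ENNReal.ofReal ε ^ F.card * (ENNReal.ofReal ε * μ B)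
        ≤ ENNReal.ofReal ε ^ F.card * μ (B ∩ {ω | ω e = true}) := by gcongr
      _ ≤ _ := h2
      _ ≤ _ := by
        apply measure_mono
        rintro ω ⟨⟨h3, h4⟩, h5⟩
        refine ⟨h3, ?_⟩
        intro f hf
        rcases Finset.mem_insert.1 hf with rfl | hf
        · exact h4
        · exact h5 f hf

end Pool.Agent.H29.HP
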