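import Pool.Agent.H29.HP.Step

set_option autoImplicit false

/-! Expectations: the recursion for the number of boundary classes (helper29). -/

namespace Pool.Agent.H29.HP

open Relation MeasureTheory Pool.Agent.H29.FK

variable {d : ℕ}

/-- the finite set of the edges inside `Λ` -/
noncomputable def eF (Λ : Finset (Fin d → ℤ)) : Finset (Ed d) := by
  classical exact Λ.sym2.subtype NN

theorem mem_eF {Λ : Finset (Fin d → ℤ)} {e : Ed d} :
    e ∈ eF Λ ↔ e ∈ eIn (↑Λ : Set (Fin d → ℤ)) := by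
  classical
  unfold eF eIn
  rw [Finset.mem_subtype, Finset.mem_sym2_iff]
  rfl

/-- functions of finitely many edges are measurable -/
theorem meas_loc {α : Type*} [MeasurableSpace α] (F : Finset (Ed d)) {X : Cfg d → α}
    (h : ∀ ω ω' : Cfg d, (∀ e ∈ F, ω e = ω' e) → X ω = X ω') : Measurable X := by
  classical
  have h1 : X = (fun σ : F → Bool => X (fun e => if he : e ∈ F then σ ⟨e, he⟩ else true)) ∘
      (fun (ω : Cfg d) (e : F) => ω e) := by
    funext ω
    apply h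
    intro e he
    simp [he]
  rw [h1]
  exact (measurable_of_finite _).comp (measurable_pi_lambda _ (fun e => measurable_pi_apply _))

theorem meas_loc_set (F : Finset (Ed d)) {A : Set (Cfg d)}
    (h : ∀ ω ω' : Cfg d, (∀ e ∈ F, ω e = ω' e) → (ω ∈ A ↔ ω' ∈ A)) : MeasurableSet A := by
  have h1 : Measurable (fun ω => (ω ∈ A)) := meas_loc F (fun ω ω' hh => propext (h ω ω' hh))
  exact measurableSet_setOfPred.2 h1

theorem int_nat {μ : Measure (Cfg d)} [IsProbabilityMeasure μ] {g : Cfg d → ℕ} (hg : Measurable g)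
    {N : ℕ} (hN : ∀ ω, g ω ≤ N) :
    ∫ ω, (g ω : ℝ) ∂μ = ∑ k ∈ Finset.range N, μ.real {ω | k < g ω} := by
  classical
  have hm : ∀ k, MeasurableSet {ω | k < g ω} := fun k => measurableSet_lt measurable_const hg
  have h1 : ∀ ω, (g ω : ℝ) = ∑ k ∈ Finset.range N, ({ω | k < g ω} : Set (Cfg d)).indicator 1 ω := by
    intro ω
    have h2 : (g ω : ℝ) = ((Finset.range N).filter (fun k => k < g ω)).card := by
      congr 1
      have : (Finset.range N).filter (fun k => k < g ω) = Finset.range (g ω) := by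
        ext k
        rw [Finset.mem_filter, Finset.mem_range, Finset.mem_range]
        have := hN ω
        omega
      rw [this, Finset.card_range]
    rw [h2, Finset.card_filter]
    push_cast
    apply Finset.sum_congr rfl
    intro k _
    by_cases hk : k < g ω
    · rw [if_pos hk, Set.indicator_of_mem (show ω ∈ {ω | k < g ω} from hk)]; rfl
    · rw [if_neg hk, Set.indicator_of_notMem (show ω ∉ {ω | k < g ω} from hk)]
  simp_rw [h1]
  rw [integral_finsetSum]
  · apply Finset.sum_congr rfl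
    intro k _
    rw [integral_indicator_one (hm k)]
  · intro k _
    exact (integrable_const (1 : ℝ)).indicator (hm k)

theorem IT.real {ε : ℝ} {μ : Measure (Cfg d)} [IsProbabilityMeasure μ] (hε : 0 ≤ ε) (h : IT ε μ)
    (F : Finset (Ed d)) {B : Set (Cfg d)} (hB : MeasurableSet B) (hD : Det {f | f ∉ F} B) :
    ε ^ F.card * μ.real B ≤ μ.real (B ∩ {ω | ∀ e ∈ F, ω e = true}) := by
  have h1 := ENNReal.toReal_mono (measure_ne_top μ _) (h.insert F hB hD)
  rw [ENNReal.toReal_mul, ENNReal.toReal_pow, ENNReal.toReal_ofReal hε] at h1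
  exact h1

theorem insert_int {ε : ℝ} {μ : Measure (Cfg d)} [IsProbabilityMeasure μ] (hε : 0 ≤ ε) (h : IT ε μ)
    (F : Finset (Ed d)) {g : Cfg d → ℕ} (hg : Measurable g)
    (hD : ∀ k, Det {f | f ∉ F} {ω | k < g ω}) {N : ℕ} (hN : ∀ ω, g ω ≤ N) :
    ε ^ F.card * ∫ ω, (g ω : ℝ) ∂μ ≤
      ∫ ω, ((Set.indicator {ω' : Cfg d | ∀ e ∈ F, ω' e = true} g ω : ℕ) : ℝ) ∂μ := by
  classical
  have hO : MeasurableSet {ω : Cfg d | ∀ e ∈ F, ω e = true} := by
    apply meas_loc_set F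
    intro ω ω' hh
    exact ⟨fun h1 e he => by rw [← hh e he]; exact h1 e he,
      fun h1 e he => by rw [hh e he]; exact h1 e he⟩
  have hg' : Measurable (Set.indicator {ω' : Cfg d | ∀ e ∈ F, ω' e = true} g) := hg.indicator hO
  have hN' : ∀ ω, Set.indicator {ω' : Cfg d | ∀ e ∈ F, ω' e = true} g ω ≤ N := by
    intro ω
    by_cases hω : ω ∈ {ω' : Cfg d | ∀ e ∈ F, ω' e = true}
    · rw [Set.indicator_of_mem hω]; exact hN ω
    · rw [Set.indicator_of_notMem hω]; exact Nat.zero_le _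
  rw [int_nat hg hN, int_nat hg' hN', Finset.mul_sum]
  apply Finset.sum_le_sum
  intro k _
  have h1 : {ω | k < Set.indicator {ω' : Cfg d | ∀ e ∈ F, ω' e = true} g ω} =
      {ω | k < g ω} ∩ {ω : Cfg d | ∀ e ∈ F, ω e = true} := by
    ext ω
    by_cases hω : ω ∈ {ω' : Cfg d | ∀ e ∈ F, ω' e = true}
    · rw [Set.mem_ofPred_eq, Set.indicator_of_mem hω]
      exact ⟨fun hh => ⟨hh, hω⟩, fun hh => hh.1⟩
    · rw [Set.mem_ofPred_eq, Set.indicator_of_notMem hω]
      exact ⟨fun hh => absurd hh (Nat.not_lt_zero _), fun hh => absurd hh.2 hω⟩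
  rw [h1]
  exact h.real hε F (measurableSet_lt measurable_const hg) (hD k)

/-! ### Dependence on the edges of the slab box -/

theorem Ty_congr {j : Fin d} {r n y : ℕ} (hr : r ≤ y) {ω ω' : Cfg d}
    (h : ∀ e ∈ eIn (↑(Slb j n y) : Set (Fin d → ℤ)), ω e = ω' e) : Ty j r n y ω = Ty j r n y ω' := by
  ext c
  rw [mem_Ty, mem_Ty]
  unfold TriG
  rw [Rin_congr h]
  apply and_congr_right
  intro hc
  have h1 : BoxOpen ω (Bx r c) ↔ BoxOpen ω' (Bx r c) := by
    have h2 : ∀ e ∈ eIn (Bx r c), ω e = ω' e := fun e he =>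
      h e (fun x hx => Bx_sub hc hr (he x hx))
    exact ⟨fun h3 e he => by rw [← h2 e he]; exact h3 e he,
      fun h3 e he => by rw [h2 e he]; exact h3 e he⟩
  rw [h1]

theorem CL_congr {j : Fin d} {r n y : ℕ} (hr : r ≤ y) {ω ω' : Cfg d}
    (h : ∀ e ∈ eIn (↑(Slb j n y) : Set (Fin d → ℤ)), ω e = ω' e) : CL j r n y ω = CL j r n y ω' := by
  ext C
  rw [mem_CL, mem_CL, Rin_congr h, Ty_congr hr h]

theorem Aq_congr {j : Fin d} {r D n y : ℕ} (hr : r ≤ y) (q : Fin d → ℤ) {ω ω' : Cfg d}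
    (h : ∀ e ∈ eIn (↑(Slb j n y) : Set (Fin d → ℤ)), ω e = ω' e) :
    Aq j r D n y q ω = Aq j r D n y q ω' := by
  unfold Aq
  rw [CL_congr hr h]

theorem CL_card_le {j : Fin d} {r n y : ℕ} (ω : Cfg d) :
    (CL j r n y ω).card ≤ (2 * y + 1) * n ^ (d - 1) := by
  rw [← card_Slb j n y]
  apply Finset.card_le_card_of_injOn (fun C => rp (Slb j n y) C)
  · intro C hC
    exact (mem_bdy.1 (CL_rp hC).1).1
  · intro C hC C' hC' h
    refine CL_eq hC hC' (CL_rp hC).2 (b := rp (Slb j n y) C) ?_ .refl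
    have h' : rp (Slb j n y) C = rp (Slb j n y) C' := h
    rw [h']; exact (CL_rp hC').2

theorem Aq_le {j : Fin d} {r D n y : ℕ} (q : Fin d → ℤ) (ω : Cfg d) :
    Aq j r D n y q ω ≤ (CL j r n y ω).card := by
  classical
  unfold Aq
  exact Finset.card_filter_le _ _

theorem meas_CL {j : Fin d} {r n y : ℕ} (hr : r ≤ y) :
    Measurable (fun ω : Cfg d => (CL j r n y ω).card) :=
  meas_loc (eF (Slb j n y)) (fun ω ω' h => by
    show (CL j r n y ω).card = (CL j r n y ω').card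
    rw [CL_congr hr (fun e he => h e (mem_eF.2 he))])

theorem meas_Aq {j : Fin d} {r D n y : ℕ} (hr : r ≤ y) (q : Fin d → ℤ) :
    Measurable (fun ω : Cfg d => Aq j r D n y q ω) :=
  meas_loc (eF (Slb j n y)) (fun ω ω' h => Aq_congr hr q (fun e he => h e (mem_eF.2 he)))

theorem int_bdd {μ : Measure (Cfg d)} [IsProbabilityMeasure μ] {g : Cfg d → ℕ} (hg : Measurable g)
    {N : ℕ} (hN : ∀ ω, g ω ≤ N) : Integrable (fun ω => (g ω : ℝ)) μ := by
  apply Integrable.of_bound (C := (N : ℝ))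
  · exact (measurable_from_nat.comp hg).aestronglyMeasurable
  · filter_upwards with ω
    rw [Real.norm_of_nonneg (Nat.cast_nonneg _)]
    exact_mod_cast hN ω

/-- **the recursion** -/
theorem recur {j : Fin d} {r D m y : ℕ} {ε : ℝ} {μ : Measure (Cfg d)} [IsProbabilityMeasure μ]
    (hD : 1 ≤ D) (hr : r ≤ y) (hε : 0 ≤ ε) (hε1 : ε ≤ 1) (h : IT ε μ) {θ : ℝ}
    (hθ : θ = ε ^ ((2 * D ^ (d - 1)) * (2 * D ^ (d - 1)))) :
    ∫ ω, ((CL j r (D * m) (y + 1) ω).card : ℝ) ∂μ ≤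
      (1 - θ) * ∫ ω, ((CL j r (D * m) y ω).card : ℝ) ∂μ + θ * (2 * (m : ℝ) ^ (d - 1)) +
        (Lt j (D * m) y).card := by
  classical
  set n := D * m with hn
  set N := (2 * y + 1) * n ^ (d - 1) with hN
  have hθ0 : 0 ≤ θ := by rw [hθ]; positivity
  have hθ1 : θ ≤ 1 := by rw [hθ]; exact pow_le_one₀ hε hε1
  -- the functions
  set A : (Fin d → ℤ) → Cfg d → ℕ := fun q ω => Aq j r D n y q ω with hA
  have hAm : ∀ q, Measurable (A q) := fun q => meas_Aq hr q
  have hAN : ∀ q ω, A q ω ≤ N := fun q ω => (Aq_le q ω).trans (CL_card_le ω)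
  set A1 : (Fin d → ℤ) → Cfg d → ℕ := fun q ω => A q ω - 1 with hA1
  have hA1m : ∀ q, Measurable (A1 q) := fun q => by
    have : A1 q = (fun t : ℕ => t - 1) ∘ A q := rfl
    rw [this]
    exact (measurable_from_nat).comp (hAm q)
  have hA1N : ∀ q ω, A1 q ω ≤ N := fun q ω => (Nat.sub_le _ _).trans (hAN q ω)
  set O : (Fin d → ℤ) → Set (Cfg d) := fun q => {ω' | CapO j D n y q ω'} with hO
  have hOm : ∀ q, MeasurableSet (O q) := by
    intro q
    apply meas_loc_set (capF j D n y q)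
    intro ω ω' hh
    exact ⟨fun h1 e he => by rw [← hh e he]; exact h1 e he,
      fun h1 e he => by rw [hh e he]; exact h1 e he⟩
  have hIm : ∀ q, Measurable ((O q).indicator (A1 q)) := fun q => (hA1m q).indicator (hOm q)
  have hIle : ∀ q ω, (O q).indicator (A1 q) ω ≤ A1 q ω := by
    intro q ω
    by_cases hω : ω ∈ O q
    · rw [Set.indicator_of_mem hω]
    · rw [Set.indicator_of_notMem hω]; exact Nat.zero_le _
  have hIN : ∀ q ω, (O q).indicator (A1 q) ω ≤ N := fun q ω => (hIle q ω).trans (hA1N q ω)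
  -- the probabilistic estimate
  have key : ∀ q, ∫ ω, (A q ω : ℝ) ∂μ - ∫ ω, (((O q).indicator (A1 q) ω : ℕ) : ℝ) ∂μ ≤
      (1 - θ) * ∫ ω, (A q ω : ℝ) ∂μ + θ := by
    intro q
    have h1 := insert_int (μ := μ) hε h (capF j D n y q) (hA1m q) (by
      intro k
      have : ∀ ω ω' : Cfg d, (∀ e ∈ {f : Ed d | f ∉ capF j D n y q}, ω e = ω' e) →
          (ω ∈ {ω | k < A1 q ω} ↔ ω' ∈ {ω | k < A1 q ω}) := by
        intro ω ω' hh
        have h2 : A q ω = A q ω' := Aq_congr hr q (fun e he => hh e (fun h3 => capF_off h3 he))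
        simp only [hA1, Set.mem_ofPred_eq, h2]
      exact this) (hA1N q)
    have h2 : θ * ∫ ω, (A1 q ω : ℝ) ∂μ ≤ ∫ ω, (((O q).indicator (A1 q) ω : ℕ) : ℝ) ∂μ := by
      refine le_trans ?_ h1
      apply mul_le_mul_of_nonneg_right _ (integral_nonneg (fun ω => Nat.cast_nonneg _))
      rw [hθ]
      exact pow_le_pow_of_le_one hε hε1 (card_capF j D n y q)
    have h3 : ∫ ω, (A q ω : ℝ) ∂μ - 1 ≤ ∫ ω, (A1 q ω : ℝ) ∂μ := by
      have h4 : ∫ ω, (A q ω : ℝ) ∂μ - 1 = ∫ ω, ((A q ω : ℝ) - 1) ∂μ := by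
        rw [integral_sub (int_bdd (hAm q) (hAN q)) (integrable_const 1)]
        simp
      rw [h4]
      apply integral_mono ((int_bdd (hAm q) (hAN q)).sub (integrable_const 1))
        (int_bdd (hA1m q) (hA1N q))
      intro ω
      simp only [hA1]
      have : A q ω ≤ (A q ω - 1) + 1 := by omega
      have h5 : (A q ω : ℝ) ≤ ((A q ω - 1 : ℕ) : ℝ) + 1 := by exact_mod_cast this
      show (A q ω : ℝ) - 1 ≤ ((A q ω - 1 : ℕ) : ℝ)
      linarith
    have h6 := mul_le_mul_of_nonneg_left h3 hθ0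
    linarith
  -- the deterministic estimate
  have hdet : ∀ ω, ((CL j r n (y + 1) ω).card : ℝ) ≤ (Lt j n y).card +
      ∑ q ∈ Cells j m y, ((A q ω : ℝ) - (((O q).indicator (A1 q) ω : ℕ) : ℝ)) := by
    intro ω
    have h1 := step (j := j) (r := r) (D := D) (m := m) (y := y) hD hr ω
    have h2 : ((CL j r n (y + 1) ω).card : ℝ) ≤ (((Lt j n y).card +
      ∑ q ∈ Cells j m y, (A q ω - (O q).indicator (A1 q) ω) : ℕ) : ℝ) := by
      exact_mod_cast h1
    refine h2.trans_eq ?_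
    push_cast
    congr 1
    apply Finset.sum_congr rfl
    intro q _
    rw [Nat.cast_sub ((hIle q ω).trans (Nat.sub_le _ _))]
  have hint1 : Integrable (fun ω => ((CL j r n (y + 1) ω).card : ℝ)) μ :=
    int_bdd (meas_CL (by omega)) (fun ω => CL_card_le ω)
  have hint0 : Integrable (fun ω => ((CL j r n y ω).card : ℝ)) μ :=
    int_bdd (meas_CL hr) (fun ω => CL_card_le ω)
  have hint2 : ∀ q, Integrable (fun ω => (A q ω : ℝ) - (((O q).indicator (A1 q) ω : ℕ) : ℝ)) μ :=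
    fun q => (int_bdd (hAm q) (hAN q)).sub (int_bdd (hIm q) (hIN q))
  have hint3 : Integrable (fun ω => ∑ q ∈ Cells j m y,
      ((A q ω : ℝ) - (((O q).indicator (A1 q) ω : ℕ) : ℝ))) μ :=
    integrable_finsetSum _ (fun q _ => hint2 q)
  have e1 : ∫ ω, ((CL j r n (y + 1) ω).card : ℝ) ∂μ ≤ (Lt j n y).card +
      ∑ q ∈ Cells j m y, (∫ ω, (A q ω : ℝ) ∂μ - ∫ ω, (((O q).indicator (A1 q) ω : ℕ) : ℝ) ∂μ) := by
    refine (integral_mono (g := fun ω => ((Lt j n y).card : ℝ) + ∑ q ∈ Cells j m y,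
      ((A q ω : ℝ) - (((O q).indicator (A1 q) ω : ℕ) : ℝ))) hint1
      ((integrable_const _).add hint3) hdet).trans_eq ?_
    rw [integral_add (integrable_const _) hint3, integral_finsetSum _ (fun q _ => hint2 q)]
    congr 1
    · simp
    · apply Finset.sum_congr rfl
      intro q _
      rw [integral_sub (int_bdd (hAm q) (hAN q)) (int_bdd (hIm q) (hIN q))]
  have e2 : ∑ q ∈ Cells j m y, (∫ ω, (A q ω : ℝ) ∂μ -
      ∫ ω, (((O q).indicator (A1 q) ω : ℕ) : ℝ) ∂μ) ≤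
      (1 - θ) * ∑ q ∈ Cells j m y, ∫ ω, (A q ω : ℝ) ∂μ + θ * (2 * (m : ℝ) ^ (d - 1)) := by
    refine (Finset.sum_le_sum (fun q _ => key q)).trans ?_
    rw [Finset.sum_add_distrib, ← Finset.mul_sum, Finset.sum_const, nsmul_eq_mul, mul_comm _ θ]
    have h1 : ((Cells j m y).card : ℝ) ≤ 2 * (m : ℝ) ^ (d - 1) := by
      exact_mod_cast card_Cells j m y
    gcongr
  have e3 : ∑ q ∈ Cells j m y, ∫ ω, (A q ω : ℝ) ∂μ ≤ ∫ ω, ((CL j r n y ω).card : ℝ) ∂μ := by
    rw [← integral_finsetSum _ (fun q _ => int_bdd (hAm q) (hAN q))]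
    apply integral_mono (integrable_finsetSum _ (fun q _ => int_bdd (hAm q) (hAN q))) hint0
    intro ω
    simp only
    exact_mod_cast sum_Aq_le (j := j) (r := r) (D := D) (m := m) (y := y) hD ω
  have e4 := mul_le_mul_of_nonneg_left e3 (sub_nonneg.2 hθ1)
  linarith

end Pool.Agent.H29.HP
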