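import Pool.Agent.H29.HP.Exp
import Pool.Agent.H29.FK.Bern

set_option autoImplicit false

/-! Trifurcation boxes have positive probability (helper29). -/

namespace Pool.Agent.H29.HP

open Relation MeasureTheory Pool.Agent.H29.FK

variable {d : ℕ}

theorem Bx_cube (r : ℕ) (c : Fin d → ℤ) : Bx r c = (↑(cube c r) : Set (Fin d → ℤ)) := by
  ext z
  rw [Finset.mem_coe, mem_cube]
  unfold Bx
  simp only [Set.mem_ofPred_eq, abs_le]
  constructor
  · intro h i; have := h i; constructor <;> omega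
  · intro h i; have := h i; constructor <;> omega

theorem clus_eq_of {ω : Cfg d} {a b : Fin d → ℤ} (h : ReflTransGen (Opn ω) a b) :
    clus ω a = clus ω b := by
  ext u
  exact ⟨fun hu => (rtg_symm (fun _ _ hh => hh.symm) h).trans hu, fun hu => h.trans hu⟩

/-- three distinct infinite clusters meet the box -/
def Bad (r : ℕ) : Set (Cfg d) :=
  {ω | ∃ v : Fin 3 → (Fin d → ℤ), (∀ i, v i ∈ Bx r 0 ∧ (clus ω (v i)).Infinite) ∧
    ∀ i k, i ≠ k → clus ω (v i) ≠ clus ω (v k)}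

theorem exists_inf {ω : Cfg d} {r : ℕ} {u : Fin d → ℤ} (hu : u ∈ Bx r (0 : Fin d → ℤ))
    (hinf : (clus ω u).Infinite) : ∃ b ∈ Bx r (0 : Fin d → ℤ), ReflTransGen (Opn ω) u b ∧
      {y | ReflTransGen (offB (Opn ω) (Bx r 0)) b y}.Infinite := by
  by_contra hcon
  push Not at hcon
  apply hinf
  have hfin : (⋃ b ∈ {b | b ∈ Bx r (0 : Fin d → ℤ) ∧ ReflTransGen (Opn ω) u b},
      {y | ReflTransGen (offB (Opn ω) (Bx r 0)) b y}).Finite := by
    apply Set.Finite.biUnion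
    · apply Set.Finite.subset (s := Bx r (0 : Fin d → ℤ))
      · rw [Bx_cube]; exact Finset.finite_toSet _
      · intro b hb; exact hb.1
    · intro b hb
      exact hcon b hb.1 hb.2
  apply hfin.subset
  intro y hy
  have hy' : ReflTransGen (Opn ω) y u := rtg_symm (fun _ _ hh => hh.symm) hy
  obtain ⟨s, hs, hys⟩ := hit hy' hu
  have h1 : ReflTransGen (offB (Opn ω) (Bx r 0)) y s :=
    rtg_mono (fun a b hh => ⟨hh.1, fun h3 => hh.2 h3.1⟩) hys
  rw [Set.mem_iUnion₂]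
  refine ⟨s, ⟨hs, ReflTransGen.trans hy (rtg_mono (fun _ _ hh => hh.1) h1)⟩, ?_⟩
  exact rtg_symm (offB_symm (fun _ _ hh => hh.symm) _) h1

theorem bad_sub (r R : ℕ) (hr : r ≤ R) :
    Bad r ⊆ {ω : Cfg d | TriG ω (cube 0 R) (Bx r 0)} := by
  rintro ω ⟨v, hv, hne⟩
  have h1 := fun i => exists_inf (hv i).1 (hv i).2
  choose b hb hvb hinf using h1
  have h2 : ∀ i, ∃ w ∈ bdy (cube (0 : Fin d → ℤ) R),
      ReflTransGen (offB (Rin ω (cube 0 R)) (Bx r 0)) (b i) w := by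
    intro i
    obtain ⟨z, hz, hz'⟩ : ∃ z ∈ {y | ReflTransGen (offB (Opn ω) (Bx r 0)) (b i) y},
        z ∉ (cube (0 : Fin d → ℤ) R) := by
      by_contra hcon
      push Not at hcon
      exact hinf i ((Finset.finite_toSet (cube (0 : Fin d → ℤ) R)).subset hcon)
    have hbR : b i ∈ cube (0 : Fin d → ℤ) R := by
      have := hb i
      rw [Bx_cube] at this
      exact cube_mono 0 hr this
    obtain ⟨w, hw, h3, -⟩ := exit_mem (r := offB (Opn ω) (Bx r 0)) (Λ := cube (0 : Fin d → ℤ) R)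
      (Λ' := cube (0 : Fin d → ℤ) R) (fun a b hh => opn_nn hh.1) (Finset.Subset.refl _) hz hbR
      (Or.inr hz')
    refine ⟨w, hw, rtg_mono ?_ h3⟩
    rintro x y ⟨⟨h5, h6⟩, h7, h8⟩
    exact ⟨⟨h5, h7, h8⟩, h6⟩
  choose w hw hbw using h2
  refine ⟨w, fun i => ⟨hw i, b i, hb i, hbw i⟩, ?_⟩
  intro i k hik hh
  apply hne i k hik
  have toO : ∀ {x y : Fin d → ℤ}, ReflTransGen (offB (Rin ω (cube 0 R)) (Bx r 0)) x y →
      ReflTransGen (Opn ω) x y := fun h => rtg_mono (fun _ _ hh => hh.1.1) h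
  rw [clus_eq_of (hvb i), clus_eq_of (toO (hbw i)), clus_eq_of (hvb k), clus_eq_of (toO (hbw k))]
  exact clus_eq_of (toO hh)

theorem exists_bad {μ : Measure (Cfg d)} (h : ¬ AtMostTwo μ) : ∃ r, μ (Bad (d := d) r) ≠ 0 := by
  by_contra hcon
  push Not at hcon
  apply h
  have h1 : μ (⋃ r, Bad (d := d) r) = 0 := measure_iUnion_null hcon
  have h2 : ∀ᵐ ω ∂μ, ω ∉ ⋃ r, Bad (d := d) r := measure_eq_zero_iff_ae_notMem.1 h1
  filter_upwards [h2] with ω hω
  intro u v w hu hv hw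
  by_contra h3
  push Not at h3
  obtain ⟨h3, h4, h5⟩ := h3
  apply hω
  rw [Set.mem_iUnion]
  have hmem : ∀ x : Fin d → ℤ, ∃ N : ℕ, ∀ M ≥ N, x ∈ Bx M (0 : Fin d → ℤ) := by
    intro x
    refine ⟨∑ i, (x i).natAbs, fun M hM i => ?_⟩
    have := Finset.single_le_sum (f := fun i => (x i).natAbs) (fun i _ => Nat.zero_le _)
      (Finset.mem_univ i)
    simp only [Pi.zero_apply, sub_zero]
    have h6 : (x i).natAbs ≤ M := this.trans hM
    rw [Int.abs_eq_natAbs]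
    exact_mod_cast h6
  obtain ⟨N1, hN1⟩ := hmem u
  obtain ⟨N2, hN2⟩ := hmem v
  obtain ⟨N3, hN3⟩ := hmem w
  refine ⟨N1 + N2 + N3, ![u, v, w], ?_, ?_⟩
  · intro i
    fin_cases i
    · exact ⟨hN1 _ (by omega), hu⟩
    · exact ⟨hN2 _ (by omega), hv⟩
    · exact ⟨hN3 _ (by omega), hw⟩
  · intro i k hik
    fin_cases i <;> fin_cases k <;> simp at hik ⊢
    · exact h3
    · exact h4
    · exact Ne.symm h3
    · exact h5
    · exact Ne.symm h4
    · exact Ne.symm h5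

theorem TriG_congr {ω ω' : Cfg d} {Λ : Finset (Fin d → ℤ)} {B : Set (Fin d → ℤ)}
    (h : ∀ e ∈ eIn (↑Λ : Set (Fin d → ℤ)), e ∉ eIn B → ω e = ω' e) :
    TriG ω Λ B ↔ TriG ω' Λ B := by
  have h1 : offB (Rin ω Λ) B = offB (Rin ω' Λ) B := by
    funext a b
    apply propext
    constructor
    · rintro ⟨⟨⟨h1, h2⟩, h3, h4⟩, h5⟩
      refine ⟨⟨⟨h1, ?_⟩, h3, h4⟩, h5⟩
      rw [← h2]; symm; apply h
      · intro x hx
        rcases Sym2.mem_iff.1 hx with rfl | rfl <;> assumption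
      · intro hh
        exact h5 ⟨hh a (Sym2.mem_mk_left _ _), hh b (Sym2.mem_mk_right _ _)⟩
    · rintro ⟨⟨⟨h1, h2⟩, h3, h4⟩, h5⟩
      refine ⟨⟨⟨h1, ?_⟩, h3, h4⟩, h5⟩
      rw [← h2]; apply h
      · intro x hx
        rcases Sym2.mem_iff.1 hx with rfl | rfl <;> assumption
      · intro hh
        exact h5 ⟨hh a (Sym2.mem_mk_left _ _), hh b (Sym2.mem_mk_right _ _)⟩
  unfold TriG
  rw [h1]

theorem opn_shc {c : Fin d → ℤ} {ω : Cfg d} {a b : Fin d → ℤ} :
    Opn (sh c ω) a b ↔ Opn ω (a + c) (b + c) := by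
  constructor
  · rintro ⟨h1, h2⟩
    exact ⟨nn_add c ⟨s(a, b), h1⟩, h2⟩
  · rintro ⟨h1, h2⟩
    have h3 : NN s(a, b) := by
      have := nn_add (-c) ⟨s(a + c, b + c), h1⟩
      simpa [Sym2.map_mk] using this
    exact ⟨h3, h2⟩

theorem mem_Bx_add {r : ℕ} {c a : Fin d → ℤ} : a + c ∈ Bx r c ↔ a ∈ Bx r (0 : Fin d → ℤ) := by
  simp [Bx]

theorem mem_cube_add {R : ℕ} {c a : Fin d → ℤ} :
    a + c ∈ cube c R ↔ a ∈ cube (0 : Fin d → ℤ) R := by
  rw [← Finset.mem_coe, ← Finset.mem_coe, ← Bx_cube, ← Bx_cube]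
  exact mem_Bx_add

theorem offB_sh {r R : ℕ} {c : Fin d → ℤ} {ω : Cfg d} {a b : Fin d → ℤ} :
    offB (Rin (sh c ω) (cube 0 R)) (Bx r 0) a b ↔
      offB (Rin ω (cube c R)) (Bx r c) (a + c) (b + c) := by
  unfold offB Rin
  rw [opn_shc, mem_cube_add, mem_cube_add, mem_Bx_add, mem_Bx_add]

theorem TriG_sh {r R : ℕ} {c : Fin d → ℤ} {ω : Cfg d} (h : TriG (sh c ω) (cube 0 R) (Bx r 0)) :
    TriG ω (cube c R) (Bx r c) := by
  obtain ⟨v, hv, hne⟩ := h
  have hup : ∀ {a b : Fin d → ℤ}, ReflTransGen (offB (Rin (sh c ω) (cube 0 R)) (Bx r 0)) a b →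
      ReflTransGen (offB (Rin ω (cube c R)) (Bx r c)) (a + c) (b + c) := fun h =>
    ReflTransGen.lift (fun x => x + c) (fun a b hh => offB_sh.1 hh) _ _ h
  have hdn : ∀ {a b : Fin d → ℤ}, ReflTransGen (offB (Rin ω (cube c R)) (Bx r c)) a b →
      ReflTransGen (offB (Rin (sh c ω) (cube 0 R)) (Bx r 0)) (a - c) (b - c) := fun h =>
    ReflTransGen.lift (fun x => x - c) (fun a b hh => offB_sh.2 (by simpa using hh)) _ _ h
  refine ⟨fun i => v i + c, fun i => ⟨?_, ?_⟩, ?_⟩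
  · obtain ⟨h1, z, h2, h3⟩ := mem_bdy.1 (hv i).1
    refine mem_bdy.2 ⟨mem_cube_add.2 h1, z + c, ?_, fun hh => h3 (mem_cube_add.1 hh)⟩
    exact nn_add c ⟨s(v i, z), h2⟩
  · obtain ⟨b, hb, h1⟩ := (hv i).2
    exact ⟨b + c, mem_Bx_add.2 hb, hup h1⟩
  · intro i k hik hh
    have := hdn hh
    simp only [add_sub_cancel_right] at this
    exact hne i k hik this

theorem meas_shc (c : Fin d → ℤ) : Measurable (sh c : Cfg d → Cfg d) :=
  measurable_pi_lambda _ (fun e => measurable_pi_apply _)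

theorem Ty_prob {j : Fin d} {r : ℕ} {ε : ℝ} {μ : Measure (Cfg d)} [IsProbabilityMeasure μ]
    (hε : 0 < ε) (h : IT ε μ) (hinv : HInv j μ) (hbad : μ (Bad (d := d) r) ≠ 0) :
    ∃ κ : ℝ, 0 < κ ∧ ∀ n y : ℕ, r ≤ y → ∀ c ∈ Ctr j r n,
      κ ≤ μ.real {ω | c ∈ Ty j r n y ω} := by
  set F := eF (cube (0 : Fin d → ℤ) r) with hF
  refine ⟨(ENNReal.ofReal ε ^ F.card * μ (Bad (d := d) r)).toReal, ?_, ?_⟩
  · apply ENNReal.toReal_pos
    · apply mul_ne_zero _ hbad
      exact pow_ne_zero _ (by simpa using hε)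
    · exact ENNReal.mul_ne_top (ENNReal.pow_ne_top ENNReal.ofReal_ne_top) (measure_ne_top _ _)
  intro n y hy c hc
  apply ENNReal.toReal_mono (measure_ne_top _ _)
  set R := n + y with hR
  set G : Set (Cfg d) := {ω | TriG ω (cube 0 R) (Bx r 0)} with hG
  have hGc : ∀ ω ω' : Cfg d, (∀ e ∈ eF (cube (0 : Fin d → ℤ) R), e ∉ F → ω e = ω' e) →
      (ω ∈ G ↔ ω' ∈ G) := by
    intro ω ω' hh
    apply TriG_congr
    intro e he he'
    apply hh e (mem_eF.2 he)
    rw [hF, mem_eF, ← Bx_cube]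
    exact he'
  have hGm : MeasurableSet G := meas_loc_set (eF (cube (0 : Fin d → ℤ) R))
    (fun ω ω' hh => hGc ω ω' (fun e he _ => hh e he))
  have hGD : Det {f | f ∉ F} G := fun ω ω' hh => hGc ω ω' (fun e _ he' => hh e he')
  have hOm : MeasurableSet {ω : Cfg d | ∀ e ∈ F, ω e = true} := by
    apply meas_loc_set F
    intro ω ω' hh
    exact ⟨fun h1 e he => by rw [← hh e he]; exact h1 e he,
      fun h1 e he => by rw [hh e he]; exact h1 e he⟩
  have h1 : ENNReal.ofReal ε ^ F.card * μ (Bad (d := d) r) ≤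
      μ (G ∩ {ω : Cfg d | ∀ e ∈ F, ω e = true}) := by
    refine le_trans ?_ (h.insert F hGm hGD)
    gcongr
    exact bad_sub r R (by omega)
  refine h1.trans ?_
  have hcj : c j = 0 := (mem_Ctr.1 hc).1
  rw [← hinv c hcj, Measure.map_apply (meas_shc c) (hGm.inter hOm), hinv c hcj]
  apply measure_mono
  rintro ω ⟨h2, h3⟩
  rw [Set.mem_ofPred_eq, mem_Ty]
  refine ⟨hc, ?_, ?_⟩
  · intro e he
    -- the edge `e - c`
    have he' : NN (Sym2.map (fun x => x + (-c)) e.1) := nn_add (-c) e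
    have h4 : (⟨Sym2.map (fun x => x + (-c)) e.1, he'⟩ : Ed d) ∈ F := by
      rw [hF, mem_eF, ← Bx_cube]
      intro x hx
      obtain ⟨z, hz, rfl⟩ := Sym2.mem_map.1 hx
      have := he z hz
      intro i
      have h5 := this i
      simpa [sub_eq_add_neg] using h5
    have h5 := h3 _ h4
    have h6 : shE c (⟨Sym2.map (fun x => x + (-c)) e.1, he'⟩ : Ed d) = e := by
      apply Subtype.ext
      unfold shE
      simp only [Sym2.map_map]
      have : ((fun x => x + c) ∘ fun x => x + (-c)) = (id : (Fin d → ℤ) → (Fin d → ℤ)) := by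
        funext x; simp
      rw [this, Sym2.map_id]; rfl
    unfold sh at h5
    rw [h6] at h5
    exact h5
  · refine (TriG_sh h2).anti ?_ (Bx_sub hc hy)
    intro x hx
    rw [mem_Slb] at hx
    rw [mem_cube]
    intro i
    by_cases hi : i = j
    · subst hi
      rw [hcj]
      have := hx.1
      constructor <;> push_cast [hR] <;> omega
    · have h7 := hx.2 i hi
      have h8 := (mem_Ctr.1 hc).2 i hi
      constructor <;> push_cast [hR] <;> omega

end Pool.Agent.H29.HP
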