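import Pool.Agent.H29.HP.Tri
import Pool.Agent.H29.HP.Defs
import Pool.Agent.H29.FK.Geo

set_option autoImplicit false

/-! Finite regions, boundaries, boxes (helper29). -/

namespace Pool.Agent.H29.HP

open Relation MeasureTheory Pool.Agent.H29.FK

variable {d : ℕ}

/-- open edges inside `Λ` -/
def Rin (ω : Cfg d) (Λ : Finset (Fin d → ℤ)) (a b : Fin d → ℤ) : Prop := Opn ω a b ∧ a ∈ Λ ∧ b ∈ Λ

theorem Rin_symm (ω : Cfg d) (Λ : Finset (Fin d → ℤ)) (a b : Fin d → ℤ) (h : Rin ω Λ a b) :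
    Rin ω Λ b a := ⟨h.1.symm, h.2.2, h.2.1⟩

open Classical in
/-- inner boundary -/
noncomputable def bdy (Λ : Finset (Fin d → ℤ)) : Finset (Fin d → ℤ) :=
  Λ.filter (fun x => ∃ z, NN s(x, z) ∧ z ∉ Λ)

theorem mem_bdy {Λ : Finset (Fin d → ℤ)} {x : Fin d → ℤ} :
    x ∈ bdy Λ ↔ x ∈ Λ ∧ ∃ z, NN s(x, z) ∧ z ∉ Λ := by
  classical
  unfold bdy; rw [Finset.mem_filter]

/-- edges with both ends in `S` -/
def eIn (S : Set (Fin d → ℤ)) : Set (Ed d) := {e | ∀ x ∈ e.1, x ∈ S}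

/-- all the edges inside `B` are open -/
def BoxOpen (ω : Cfg d) (B : Set (Fin d → ℤ)) : Prop := ∀ e ∈ eIn B, ω e = true

theorem opn_congr {ω ω' : Cfg d} {S : Set (Fin d → ℤ)} (h : ∀ e ∈ eIn S, ω e = ω' e)
    {a b : Fin d → ℤ} (ha : a ∈ S) (hb : b ∈ S) : Opn ω a b ↔ Opn ω' a b := by
  unfold Opn
  constructor
  · rintro ⟨h1, h2⟩
    refine ⟨h1, ?_⟩
    rw [← h2]; symm; apply h
    intro x hx
    rcases Sym2.mem_iff.1 hx with rfl | rfl <;> assumption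
  · rintro ⟨h1, h2⟩
    refine ⟨h1, ?_⟩
    rw [← h2]; apply h
    intro x hx
    rcases Sym2.mem_iff.1 hx with rfl | rfl <;> assumption

theorem Rin_congr {ω ω' : Cfg d} {Λ : Finset (Fin d → ℤ)} (h : ∀ e ∈ eIn (↑Λ : Set _), ω e = ω' e) :
    Rin ω Λ = Rin ω' Λ := by
  funext a b
  apply propext
  constructor
  · rintro ⟨h1, h2, h3⟩
    exact ⟨(opn_congr h h2 h3).1 h1, h2, h3⟩
  · rintro ⟨h1, h2, h3⟩
    exact ⟨(opn_congr h h2 h3).2 h1, h2, h3⟩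

/-- three components of `Λ` minus the box reach the boundary -/
def TriG (ω : Cfg d) (Λ : Finset (Fin d → ℤ)) (B : Set (Fin d → ℤ)) : Prop :=
  ∃ v : Fin 3 → (Fin d → ℤ), (∀ i, v i ∈ bdy Λ ∧ ∃ b ∈ B, ReflTransGen (offB (Rin ω Λ) B) b (v i)) ∧
    ∀ i k, i ≠ k → ¬ ReflTransGen (offB (Rin ω Λ) B) (v i) (v k)

/-- a path which starts in `Λ` and reaches the boundary of a larger region touches the boundary
of `Λ` -/
theorem exit_mem {r : (Fin d → ℤ) → (Fin d → ℤ) → Prop} (hr : ∀ a b, r a b → NN s(a, b))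
    {Λ Λ' : Finset (Fin d → ℤ)} (hΛ : Λ ⊆ Λ') {a v : Fin d → ℤ} (h : ReflTransGen r a v)
    (ha : a ∈ Λ) (hv : v ∈ bdy Λ' ∨ v ∉ Λ) :
    ∃ w ∈ bdy Λ, ReflTransGen (fun x y => r x y ∧ x ∈ Λ ∧ y ∈ Λ) a w ∧ ReflTransGen r w v := by
  induction h using ReflTransGen.head_induction_on with
  | refl =>
    rcases hv with hv | hv
    · rw [mem_bdy] at hv
      obtain ⟨h1, z, hz, hz'⟩ := hv
      exact ⟨v, mem_bdy.2 ⟨ha, z, hz, fun h => hz' (hΛ h)⟩, .refl, .refl⟩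
    · exact absurd ha hv
  | @head a c h1 h2 ih =>
    by_cases hc : c ∈ Λ
    · obtain ⟨w, hw, h3, h4⟩ := ih hc
      exact ⟨w, hw, .head ⟨h1, ha, hc⟩ h3, h4⟩
    · exact ⟨a, mem_bdy.2 ⟨ha, c, hr _ _ h1, hc⟩, .refl, .head h1 h2⟩

theorem opn_nn {ω : Cfg d} {a b : Fin d → ℤ} (h : Opn ω a b) : NN s(a, b) := h.1

theorem offB_mono {R R' : (Fin d → ℤ) → (Fin d → ℤ) → Prop} {B : Set (Fin d → ℤ)}
    (h : ∀ a b, R a b → R' a b) {a b : Fin d → ℤ} (hab : ReflTransGen (offB R B) a b) :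
    ReflTransGen (offB R' B) a b :=
  rtg_mono (fun _ _ hh => ⟨h _ _ hh.1, hh.2⟩) hab

theorem TriG.anti {ω : Cfg d} {Λ Λ' : Finset (Fin d → ℤ)} {B : Set (Fin d → ℤ)} (hΛ : Λ ⊆ Λ')
    (hB : B ⊆ ↑Λ) (h : TriG ω Λ' B) : TriG ω Λ B := by
  obtain ⟨v, hv, hne⟩ := h
  have hex : ∀ i, ∃ w ∈ bdy Λ, (∃ b ∈ B, ReflTransGen (offB (Rin ω Λ) B) b w) ∧
      ReflTransGen (offB (Rin ω Λ') B) w (v i) := by
    intro i
    obtain ⟨h1, b, hb, h2⟩ := hv i
    obtain ⟨w, hw, h3, h4⟩ := exit_mem (fun a b hh => opn_nn hh.1.1) hΛ h2 (hB hb) (Or.inl h1)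
    refine ⟨w, hw, ⟨b, hb, rtg_mono ?_ h3⟩, h4⟩
    rintro x y ⟨⟨h5, h6⟩, h7, h8⟩
    exact ⟨⟨h5.1, h7, h8⟩, h6⟩
  choose w hw hbw hwv using hex
  refine ⟨w, fun i => ⟨hw i, hbw i⟩, ?_⟩
  intro i k hik hh
  apply hne i k hik
  have h1 : ReflTransGen (offB (Rin ω Λ') B) (w i) (w k) :=
    offB_mono (fun a b h5 => ⟨h5.1, hΛ h5.2.1, hΛ h5.2.2⟩) hh
  exact ((rtg_symm (offB_symm (Rin_symm ω Λ') B) (hwv i)).trans h1).trans (hwv k)

/-- lattice intervals are connected -/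
theorem icc_conn {lo hi : Fin d → ℤ} {a b : Fin d → ℤ} (ha : a ∈ Set.Icc lo hi)
    (hb : b ∈ Set.Icc lo hi) :
    ReflTransGen (fun u v => NN s(u, v) ∧ u ∈ Set.Icc lo hi ∧ v ∈ Set.Icc lo hi) a b := by
  induction hn : ∑ i, (b i - a i).natAbs using Nat.strong_induction_on generalizing a with
  | _ n ih =>
  subst hn
  by_cases hab : a = b
  · subst hab; exact .refl
  · obtain ⟨i, hi'⟩ := Function.ne_iff.1 hab
    -- one step towards `b`
    obtain ⟨s, hs, hlt⟩ : ∃ s : ℤ, (s = 1 ∨ s = -1) ∧ (b i - (a i + s)).natAbs < (b i - a i).natAbs ∧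
        lo i ≤ a i + s ∧ a i + s ≤ hi i := by
      have h1 : lo i ≤ a i := ha.1 i
      have h2 : a i ≤ hi i := ha.2 i
      have h3 : lo i ≤ b i := hb.1 i
      have h4 : b i ≤ hi i := hb.2 i
      rcases lt_or_gt_of_ne hi' with h | h
      · exact ⟨1, Or.inl rfl, by omega, by omega, by omega⟩
      · exact ⟨-1, Or.inr rfl, by omega, by omega, by omega⟩
    set c : Fin d → ℤ := Function.update a i (a i + s) with hc
    have hci : c i = a i + s := by rw [hc]; simp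
    have hcl : ∀ l, l ≠ i → c l = a l := fun l hl => by rw [hc]; simp [hl]
    have hcm : c ∈ Set.Icc lo hi := by
      constructor
      · intro l
        by_cases hl : l = i
        · subst hl; rw [hci]; exact hlt.2.1
        · rw [hcl l hl]; exact ha.1 l
      · intro l
        by_cases hl : l = i
        · subst hl; rw [hci]; exact hlt.2.2
        · rw [hcl l hl]; exact ha.2 l
    have hnn : NN s(a, c) := by
      apply NN.of_coord (i := i) hcl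
      rw [hci]
      rcases hs with rfl | rfl
      · left; rfl
      · right; ring
    refine ReflTransGen.head ⟨hnn, ha, hcm⟩ (ih _ ?_ hcm rfl)
    apply Finset.sum_lt_sum
    · intro l _
      by_cases hl : l = i
      · subst hl; rw [hci]; exact hlt.1.le
      · rw [hcl l hl]
    · exact ⟨i, Finset.mem_univ _, by rw [hci]; exact hlt.1⟩

/-- the cube of radius `r` around `c` -/
def Bx (r : ℕ) (c : Fin d → ℤ) : Set (Fin d → ℤ) := {z | ∀ i, |z i - c i| ≤ r}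

theorem Bx_eq (r : ℕ) (c : Fin d → ℤ) : Bx r c = Set.Icc (fun i => c i - r) (fun i => c i + r) := by
  ext z
  simp only [Bx, Set.mem_ofPred_eq, Set.mem_Icc, Pi.le_def, abs_le]
  constructor
  · intro h; exact ⟨fun i => by have := h i; omega, fun i => by have := h i; omega⟩
  · intro h i; exact ⟨by have := h.1 i; omega, by have := h.2 i; omega⟩

/-- an open box is connected inside -/
theorem box_conn {ω : Cfg d} {Λ : Finset (Fin d → ℤ)} {lo hi : Fin d → ℤ}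
    (hB : Set.Icc lo hi ⊆ (↑Λ : Set (Fin d → ℤ)))
    (ho : BoxOpen ω (Set.Icc lo hi)) {a b : Fin d → ℤ} (ha : a ∈ Set.Icc lo hi)
    (hb : b ∈ Set.Icc lo hi) :
    ReflTransGen (fun u v => Rin ω Λ u v ∧ u ∈ Set.Icc lo hi ∧ v ∈ Set.Icc lo hi) a b := by
  refine rtg_mono ?_ (icc_conn ha hb)
  rintro u v ⟨h1, h2, h3⟩
  refine ⟨⟨⟨h1, ho _ ?_⟩, hB h2, hB h3⟩, h2, h3⟩
  intro x hx
  rcases Sym2.mem_iff.1 hx with rfl | rfl <;> assumption

end Pool.Agent.H29.HP
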