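import Pool.Agent.H29.HP.Reg
import Pool.Agent.H29.FK.Box

set_option autoImplicit false

/-! The slabs `Λ(n,y)`, trifurcation boxes, the deterministic step (helper29). -/

namespace Pool.Agent.H29.HP

open Relation MeasureTheory Pool.Agent.H29.FK

variable {d : ℕ}

/-- the slab box `0 ≤ x i < n` (`i ≠ j`), `|x j| ≤ y` -/
noncomputable def Slb (j : Fin d) (n y : ℕ) : Finset (Fin d → ℤ) :=
  Fintype.piFinset (fun i => if i = j then Finset.Icc (-(y : ℤ)) y else Finset.Ico (0 : ℤ) n)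

theorem mem_Slb {j : Fin d} {n y : ℕ} {x : Fin d → ℤ} :
    x ∈ Slb j n y ↔ (-(y : ℤ) ≤ x j ∧ x j ≤ y) ∧ ∀ i, i ≠ j → 0 ≤ x i ∧ x i < n := by
  unfold Slb
  rw [Fintype.mem_piFinset]
  constructor
  · intro h
    constructor
    · have := h j
      rw [if_pos rfl, Finset.mem_Icc] at this
      exact this
    · intro i hi
      have := h i
      rw [if_neg hi, Finset.mem_Ico] at this
      exact this
  · rintro ⟨h1, h2⟩ i
    by_cases hi : i = j
    · rw [if_pos hi, Finset.mem_Icc, hi]; exact h1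
    · rw [if_neg hi, Finset.mem_Ico]; exact h2 i hi

theorem Slb_mono {j : Fin d} {n y y' : ℕ} (h : y ≤ y') : Slb j n y ⊆ Slb j n y' := by
  intro x hx
  rw [mem_Slb] at hx ⊢
  exact ⟨⟨by omega, by omega⟩, hx.2⟩

theorem card_Slb (j : Fin d) (n y : ℕ) : (Slb j n y).card = (2 * y + 1) * n ^ (d - 1) := by
  unfold Slb
  rw [Fintype.card_piFinset, ← prod_ite_one j]
  apply Finset.prod_congr rfl
  intro i _
  by_cases hi : i = j
  · rw [if_pos hi, if_pos hi, Int.card_Icc]; omega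
  · rw [if_neg hi, if_neg hi, Int.card_Ico]; omega

theorem mem_hb {j : Fin d} {n : ℕ} {x : Fin d → ℤ} :
    x ∈ hb j n ↔ x j = 0 ∧ ∀ i, i ≠ j → 0 ≤ x i ∧ x i < n := by
  unfold hb
  rw [Fintype.mem_piFinset]
  constructor
  · intro h
    constructor
    · have := h j
      rw [if_pos rfl, Finset.mem_singleton] at this
      exact this
    · intro i hi
      have := h i
      rw [if_neg hi, Finset.mem_Ico] at this
      exact this
  · rintro ⟨h1, h2⟩ i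
    by_cases hi : i = j
    · rw [if_pos hi, Finset.mem_singleton, hi]; exact h1
    · rw [if_neg hi, Finset.mem_Ico]; exact h2 i hi

open Classical in
/-- centres of the trifurcation boxes -/
noncomputable def Ctr (j : Fin d) (r n : ℕ) : Finset (Fin d → ℤ) :=
  (hb j n).filter (fun c => ∀ i, i ≠ j → c i % (2 * r + 1) = r ∧ c i + r < n)

theorem mem_Ctr {j : Fin d} {r n : ℕ} {c : Fin d → ℤ} :
    c ∈ Ctr j r n ↔ c j = 0 ∧ ∀ i, i ≠ j → 0 ≤ c i ∧ c i < n ∧ c i % (2 * r + 1) = r ∧ c i + r < n := by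
  classical
  unfold Ctr
  rw [Finset.mem_filter, mem_hb]
  constructor
  · rintro ⟨⟨h1, h2⟩, h3⟩
    exact ⟨h1, fun i hi => ⟨(h2 i hi).1, (h2 i hi).2, (h3 i hi).1, (h3 i hi).2⟩⟩
  · rintro ⟨h1, h2⟩
    exact ⟨⟨h1, fun i hi => ⟨(h2 i hi).1, (h2 i hi).2.1⟩⟩, fun i hi => (h2 i hi).2.2⟩

theorem Bx_sub {j : Fin d} {r n y : ℕ} {c : Fin d → ℤ} (hc : c ∈ Ctr j r n) (hr : r ≤ y) :
    Bx r c ⊆ (↑(Slb j n y) : Set (Fin d → ℤ)) := by
  intro z hz
  rw [mem_Ctr] at hc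
  rw [Finset.mem_coe, mem_Slb]
  have h0 := abs_le.1 (hz j)
  rw [hc.1] at h0
  refine ⟨⟨by omega, by omega⟩, ?_⟩
  intro i hi
  obtain ⟨h1, h2, h3, h4⟩ := hc.2 i hi
  have h5 := abs_le.1 (hz i)
  have h6 : (r : ℤ) ≤ c i := by
    by_contra hh
    have := Int.emod_eq_of_lt h1 (show c i < 2 * (r : ℤ) + 1 by omega)
    omega
  exact ⟨by omega, by omega⟩

theorem Bx_disj {j : Fin d} {r n : ℕ} {c c' : Fin d → ℤ} (hc : c ∈ Ctr j r n)
    (hc' : c' ∈ Ctr j r n) (hne : c ≠ c') : Disjoint (Bx r c) (Bx r c') := by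
  rw [Set.disjoint_left]
  intro z hz hz'
  apply hne
  rw [mem_Ctr] at hc hc'
  funext i
  by_cases hi : i = j
  · rw [hi, hc.1, hc'.1]
  · obtain ⟨_, _, h3, _⟩ := hc.2 i hi
    obtain ⟨_, _, h3', _⟩ := hc'.2 i hi
    have h5 := abs_le.1 (hz i)
    have h5' := abs_le.1 (hz' i)
    have e1 := Int.emod_add_mul_ediv (c i) (2 * r + 1)
    have e2 := Int.emod_add_mul_ediv (c' i) (2 * r + 1)
    rw [h3] at e1
    rw [h3'] at e2
    have h6 : (2 * (r : ℤ) + 1) * (c i / (2 * r + 1) - c' i / (2 * r + 1)) = c i - c' i := by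
      rw [mul_sub]; linarith
    have h7 : c i / (2 * r + 1) - c' i / (2 * r + 1) = 0 := by
      by_contra hh
      have h8 : 1 ≤ |c i / (2 * (r : ℤ) + 1) - c' i / (2 * r + 1)| := Int.one_le_abs hh
      have h9 : |c i - c' i| ≤ 2 * r := by
        rw [abs_le]; constructor <;> omega
      rw [← h6, abs_mul, abs_of_nonneg (by positivity : (0 : ℤ) ≤ 2 * r + 1)] at h9
      nlinarith
    rw [h7, mul_zero] at h6
    omega

open Classical in
/-- the trifurcation boxes of the slab box -/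
noncomputable def Ty (j : Fin d) (r n y : ℕ) (ω : Cfg d) : Finset (Fin d → ℤ) :=
  (Ctr j r n).filter (fun c => BoxOpen ω (Bx r c) ∧ TriG ω (Slb j n y) (Bx r c))

theorem mem_Ty {j : Fin d} {r n y : ℕ} {ω : Cfg d} {c : Fin d → ℤ} :
    c ∈ Ty j r n y ω ↔ c ∈ Ctr j r n ∧ BoxOpen ω (Bx r c) ∧ TriG ω (Slb j n y) (Bx r c) := by
  classical
  unfold Ty; rw [Finset.mem_filter]

theorem Ty_anti {j : Fin d} {r n y y' : ℕ} {ω : Cfg d} (hr : r ≤ y) (h : y ≤ y') :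
    Ty j r n y' ω ⊆ Ty j r n y ω := by
  intro c hc
  rw [mem_Ty] at hc ⊢
  exact ⟨hc.1, hc.2.1, hc.2.2.anti (Slb_mono h) (Bx_sub hc.1 hr)⟩

/-- the boundary classes which meet a trifurcation box -/
noncomputable def CL (j : Fin d) (r n y : ℕ) (ω : Cfg d) : Finset (Set (Fin d → ℤ)) :=
  (cls_finite (Rin ω (Slb j n y)) (Ty j r n y ω) (Bx r) (bdy (Slb j n y))).toFinset

theorem mem_CL {j : Fin d} {r n y : ℕ} {ω : Cfg d} {C : Set (Fin d → ℤ)} :
    C ∈ CL j r n y ω ↔ C ∈ cls (Rin ω (Slb j n y)) (Ty j r n y ω) (Bx r) (bdy (Slb j n y)) := by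
  unfold CL; rw [Set.Finite.mem_toFinset]

theorem Ty_card_le {j : Fin d} {r n y : ℕ} {ω : Cfg d} (hr : r ≤ y) :
    (Ty j r n y ω).card ≤ (CL j r n y ω).card := by
  have h := tri_count (R := Rin ω (Slb j n y)) (B := Bx r) (D := bdy (Slb j n y))
    (Rin_symm ω _) (Ty j r n y ω)
    (fun x hx y hy hne => Bx_disj (mem_Ty.1 hx).1 (mem_Ty.1 hy).1 hne)
    (by
      intro x hx a ha b hb
      have hx' := mem_Ty.1 hx
      have hsub := Bx_sub hx'.1 hr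
      rw [Bx_eq] at ha hb hsub ⊢
      exact box_conn hsub (by rw [← Bx_eq]; exact hx'.2.1) ha hb)
    (fun x hx => (mem_Ty.1 hx).2.2)
  unfold CL
  rwa [Set.ncard_eq_toFinset_card _ (cls_finite _ _ _ _)] at h

/-- representative of a class on the boundary -/
noncomputable def rp (Λ : Finset (Fin d → ℤ)) (C : Set (Fin d → ℤ)) : Fin d → ℤ := by
  classical exact if h : ∃ v ∈ bdy Λ, v ∈ C then h.choose else 0

theorem rp_spec {Λ : Finset (Fin d → ℤ)} {C : Set (Fin d → ℤ)} (h : ∃ v ∈ bdy Λ, v ∈ C) :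
    rp Λ C ∈ bdy Λ ∧ rp Λ C ∈ C := by
  unfold rp
  rw [dif_pos h]
  exact h.choose_spec

theorem CL_rp {j : Fin d} {r n y : ℕ} {ω : Cfg d} {C : Set (Fin d → ℤ)} (h : C ∈ CL j r n y ω) :
    rp (Slb j n y) C ∈ bdy (Slb j n y) ∧ rp (Slb j n y) C ∈ C := by
  rw [mem_CL] at h
  obtain ⟨⟨v, hv, rfl⟩, _⟩ := h
  exact rp_spec ⟨v, hv, ReflTransGen.refl⟩

/-- two classes with joined points agree -/
theorem CL_eq {j : Fin d} {r n y : ℕ} {ω : Cfg d} {C C' : Set (Fin d → ℤ)} (h : C ∈ CL j r n y ω)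
    (h' : C' ∈ CL j r n y ω) {a b : Fin d → ℤ} (ha : a ∈ C) (hb : b ∈ C')
    (hab : ReflTransGen (offT (Rin ω (Slb j n y)) (Ty j r n y ω) (Bx r)) a b) : C = C' := by
  rw [mem_CL] at h h'
  obtain ⟨⟨v, hv, rfl⟩, _⟩ := h
  obtain ⟨⟨w, hw, rfl⟩, _⟩ := h'
  have hs := offT_symm (B := Bx r) (Rin_symm ω (Slb j n y)) (Ty j r n y ω)
  have h1 : ReflTransGen (offT (Rin ω (Slb j n y)) (Ty j r n y ω) (Bx r)) v w :=
    (ReflTransGen.trans ha hab).trans (rtg_symm hs hb)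
  ext u
  exact ⟨fun hu => (rtg_symm hs h1).trans hu, fun hu => h1.trans hu⟩

/-- every class at height `y + 1` contains a class at height `y` -/
theorem CL_sub {j : Fin d} {r n y : ℕ} {ω : Cfg d} (hr : r ≤ y) {C : Set (Fin d → ℤ)}
    (h : C ∈ CL j r n (y + 1) ω) : ∃ C' ∈ CL j r n y ω, C' ⊆ C := by
  rw [mem_CL] at h
  obtain ⟨⟨v, hv, rfl⟩, x, hx, b, hb, hbC⟩ := h
  have hs := offT_symm (B := Bx r) (Rin_symm ω (Slb j n (y + 1))) (Ty j r n (y + 1) ω)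
  have hxT := Ty_anti hr (Nat.le_succ y) hx
  have hbL := Bx_sub (mem_Ty.1 hx).1 hr hb
  obtain ⟨w, hw, h1, h2⟩ := exit_mem (Λ := Slb j n y) (Λ' := Slb j n (y + 1))
    (r := offT (Rin ω (Slb j n (y + 1))) (Ty j r n (y + 1) ω) (Bx r))
    (fun a b hh => opn_nn hh.1.1) (Slb_mono (Nat.le_succ y))
    (rtg_symm hs hbC) hbL (Or.inl hv)
  have h3 : ReflTransGen (Rin ω (Slb j n y)) w b := by
    apply rtg_symm (Rin_symm ω _)
    refine rtg_mono ?_ h1
    rintro a c ⟨h4, h5, h6⟩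
    exact ⟨h4.1.1, h5, h6⟩
  refine ⟨_, mem_CL.2 (mem_cls hw hxT hb h3), ?_⟩
  intro u hu
  have h4 : ReflTransGen (offT (Rin ω (Slb j n (y + 1))) (Ty j r n (y + 1) ω) (Bx r)) w u := by
    refine rtg_mono ?_ hu
    rintro a c ⟨h5, h6⟩
    exact ⟨⟨h5.1, Slb_mono (Nat.le_succ y) h5.2.1, Slb_mono (Nat.le_succ y) h5.2.2⟩,
      fun z hz => h6 z (Ty_anti hr (Nat.le_succ y) hz)⟩
  exact (rtg_symm hs h2).trans h4

end Pool.Agent.H29.HP
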