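import Pool.Agent.H29.HP.Slab

set_option autoImplicit false

/-! The deterministic step from height `y` to height `y + 1` (helper29). -/

namespace Pool.Agent.H29.HP

open Relation MeasureTheory Pool.Agent.H29.FK

variable {d : ℕ}

/-- direction away from the hyperplane -/
def sg (t : ℤ) : ℤ := if 0 ≤ t then 1 else -1

theorem abs_add_sg {t : ℤ} {y : ℕ} (h : |t| = y) : |t + sg t| = y + 1 := by
  unfold sg
  split_ifs with h1
  · rw [abs_of_nonneg h1] at h; rw [abs_of_nonneg (by omega)]; omega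
  · rw [abs_of_neg (by omega)] at h; rw [abs_of_neg (by omega)]; omega

/-- the cell of a vertex -/
def cellF (j : Fin d) (D : ℕ) (v : Fin d → ℤ) : Fin d → ℤ := fun i => if i = j then v j else v i / D

/-- the cells -/
noncomputable def Cells (j : Fin d) (m y : ℕ) : Finset (Fin d → ℤ) :=
  Fintype.piFinset (fun i => if i = j then ({(-(y : ℤ)), (y : ℤ)} : Finset ℤ) else Finset.Ico (0 : ℤ) m)

theorem card_Cells (j : Fin d) (m y : ℕ) : (Cells j m y).card ≤ 2 * m ^ (d - 1) := by
  unfold Cells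
  rw [Fintype.card_piFinset, ← prod_ite_one j]
  apply Finset.prod_le_prod'
  intro i _
  by_cases hi : i = j
  · rw [if_pos hi, if_pos hi]; exact Finset.card_le_two
  · rw [if_neg hi, if_neg hi, Int.card_Ico]; omega

/-- the vertices of the cap of the cell `q` : the cell and the cell above it -/
noncomputable def Wq (j : Fin d) (D n y : ℕ) (q : Fin d → ℤ) : Finset (Fin d → ℤ) := by
  classical exact (Fintype.piFinset (fun i => if i = j then ({q j, q j + sg (q j)} : Finset ℤ) else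
    Finset.Ico (D * q i) (D * q i + D))).filter (fun x => x ∈ Slb j n (y + 1))

theorem mem_Wq {j : Fin d} {D n y : ℕ} {q x : Fin d → ℤ} :
    x ∈ Wq j D n y q ↔ ((x j = q j ∨ x j = q j + sg (q j)) ∧
      ∀ i, i ≠ j → (D : ℤ) * q i ≤ x i ∧ x i < D * q i + D) ∧ x ∈ Slb j n (y + 1) := by
  classical
  unfold Wq
  rw [Finset.mem_filter, Fintype.mem_piFinset]
  apply and_congr_left
  intro _
  constructor
  · intro h
    constructor
    · have := h j
      rw [if_pos rfl, Finset.mem_insert, Finset.mem_singleton] at this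
      exact this
    · intro i hi
      have := h i
      rw [if_neg hi, Finset.mem_Ico] at this
      exact this
  · rintro ⟨h1, h2⟩ i
    by_cases hi : i = j
    · rw [if_pos hi, Finset.mem_insert, Finset.mem_singleton, hi]; exact h1
    · rw [if_neg hi, Finset.mem_Ico]; exact h2 i hi

theorem card_Wq (j : Fin d) (D n y : ℕ) (q : Fin d → ℤ) :
    (Wq j D n y q).card ≤ 2 * D ^ (d - 1) := by
  classical
  unfold Wq
  refine (Finset.card_filter_le _ _).trans ?_
  rw [Fintype.card_piFinset, ← prod_ite_one j]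
  apply Finset.prod_le_prod'
  intro i _
  by_cases hi : i = j
  · rw [if_pos hi, if_pos hi]; exact Finset.card_le_two
  · rw [if_neg hi, if_neg hi, Int.card_Ico]; omega

open Classical in
/-- the pairs of vertices of the cap -/
noncomputable def capP (j : Fin d) (D n y : ℕ) (q : Fin d → ℤ) : Finset ((Fin d → ℤ) × (Fin d → ℤ)) :=
  ((Wq j D n y q) ×ˢ (Wq j D n y q)).filter (fun p => NN s(p.1, p.2) ∧
    ¬ (p.1 ∈ Slb j n y ∧ p.2 ∈ Slb j n y))

theorem mem_capP {j : Fin d} {D n y : ℕ} {q : Fin d → ℤ} {p : (Fin d → ℤ) × (Fin d → ℤ)} :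
    p ∈ capP j D n y q ↔ (p.1 ∈ Wq j D n y q ∧ p.2 ∈ Wq j D n y q) ∧ NN s(p.1, p.2) ∧
      ¬ (p.1 ∈ Slb j n y ∧ p.2 ∈ Slb j n y) := by
  classical
  unfold capP
  rw [Finset.mem_filter, Finset.mem_product]

open Classical in
/-- the edges of the cap -/
noncomputable def capF (j : Fin d) (D n y : ℕ) (q : Fin d → ℤ) : Finset (Ed d) :=
  (capP j D n y q).attach.image (fun p => (⟨s(p.1.1, p.1.2), (mem_capP.1 p.2).2.1⟩ : Ed d))

theorem mem_capF {j : Fin d} {D n y : ℕ} {q a b : Fin d → ℤ} (h : NN s(a, b))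
    (ha : a ∈ Wq j D n y q) (hb : b ∈ Wq j D n y q) (hab : ¬ (a ∈ Slb j n y ∧ b ∈ Slb j n y)) :
    (⟨s(a, b), h⟩ : Ed d) ∈ capF j D n y q := by
  classical
  unfold capF
  rw [Finset.mem_image]
  exact ⟨⟨(a, b), mem_capP.2 ⟨⟨ha, hb⟩, h, hab⟩⟩, Finset.mem_attach _ _, rfl⟩

theorem capF_off {j : Fin d} {D n y : ℕ} {q : Fin d → ℤ} {e : Ed d} (he : e ∈ capF j D n y q) :
    e ∉ eIn (↑(Slb j n y) : Set (Fin d → ℤ)) := by
  classical
  unfold capF at he
  rw [Finset.mem_image] at he
  obtain ⟨p, _, rfl⟩ := he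
  intro h
  exact (mem_capP.1 p.2).2.2 ⟨h p.1.1 (Sym2.mem_mk_left _ _), h p.1.2 (Sym2.mem_mk_right _ _)⟩

theorem card_capF (j : Fin d) (D n y : ℕ) (q : Fin d → ℤ) :
    (capF j D n y q).card ≤ (2 * D ^ (d - 1)) * (2 * D ^ (d - 1)) := by
  classical
  unfold capF
  refine Finset.card_image_le.trans ?_
  rw [Finset.card_attach]
  unfold capP
  refine (Finset.card_filter_le _ _).trans ?_
  rw [Finset.card_product]
  exact Nat.mul_le_mul (card_Wq j D n y q) (card_Wq j D n y q)

/-- the cap is open -/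
def CapO (j : Fin d) (D n y : ℕ) (q : Fin d → ℤ) (ω : Cfg d) : Prop :=
  ∀ e ∈ capF j D n y q, ω e = true

/-- a boundary vertex on the top or the bottom -/
def Face (j : Fin d) (y : ℕ) (v : Fin d → ℤ) : Prop := v j = -(y : ℤ) ∨ v j = y

theorem Face.abs {j : Fin d} {y : ℕ} {v : Fin d → ℤ} (h : Face j y v) : |v j| = y := by
  rcases h with h | h <;> rw [h] <;> simp

theorem cell_mem {j : Fin d} {D m y : ℕ} {v : Fin d → ℤ} (hD : 1 ≤ D) (hv : v ∈ Slb j (D * m) y)
    (hf : Face j y v) : cellF j D v ∈ Cells j m y := by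
  unfold Cells
  rw [Fintype.mem_piFinset]
  intro i
  rw [mem_Slb] at hv
  by_cases hi : i = j
  · subst hi
    rw [if_pos rfl]
    unfold cellF
    rw [if_pos rfl, Finset.mem_insert, Finset.mem_singleton]
    exact hf
  · rw [if_neg hi]
    unfold cellF
    rw [if_neg hi, Finset.mem_Ico]
    obtain ⟨h1, h2⟩ := hv.2 i hi
    have hD' : (0 : ℤ) < D := by exact_mod_cast hD
    refine ⟨Int.ediv_nonneg h1 hD'.le, ?_⟩
    apply Int.ediv_lt_of_lt_mul hD'
    push_cast at h2
    linarith [mul_comm (D : ℤ) m]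

/-- the vertex above `v` -/
def upv (j : Fin d) (v : Fin d → ℤ) : Fin d → ℤ := Function.update v j (v j + sg (v j))

theorem upv_j (j : Fin d) (v : Fin d → ℤ) : upv j v j = v j + sg (v j) := by simp [upv]
theorem upv_ne {j i : Fin d} (v : Fin d → ℤ) (hi : i ≠ j) : upv j v i = v i := by simp [upv, hi]

theorem nn_upv (j : Fin d) (v : Fin d → ℤ) : NN s(v, upv j v) := by
  apply NN.of_coord (i := j) (fun l hl => upv_ne v hl)
  rw [upv_j]
  unfold sg
  split_ifs
  · left; rfl
  · right; ring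

/-- two face vertices of a cell with an open cap are joined -/
theorem cap_conn {j : Fin d} {r D n y : ℕ} {ω : Cfg d} (hD : 1 ≤ D) (hr : r ≤ y) {a b : Fin d → ℤ}
    (ha : a ∈ Slb j n y) (hb : b ∈ Slb j n y) (hfa : Face j y a) (hfb : Face j y b)
    (hab : cellF j D a = cellF j D b) (hO : CapO j D n y (cellF j D a) ω)
    {T : Finset (Fin d → ℤ)} (hT : ∀ c ∈ T, c j = 0) :
    ReflTransGen (offT (Rin ω (Slb j n (y + 1))) T (Bx r)) a b := by
  set q := cellF j D a with hq
  have hqj : q j = a j := by rw [hq]; simp [cellF]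
  have hqi : ∀ i, i ≠ j → q i = a i / D := fun i hi => by rw [hq]; simp [cellF, hi]
  have hqj' : q j = b j := by rw [hab]; simp [cellF]
  have hqi' : ∀ i, i ≠ j → q i = b i / D := fun i hi => by rw [hab]; simp [cellF, hi]
  have hD' : (0 : ℤ) < D := by exact_mod_cast hD
  have hdiv : ∀ t : ℤ, (D : ℤ) * (t / D) ≤ t ∧ t < D * (t / D) + D := by
    intro t
    exact ⟨Int.mul_ediv_self_le hD'.ne', by
      have := Int.lt_mul_ediv_self_add (x := t) hD'; linarith⟩
  have hy : |q j| = y := by rw [hqj]; exact hfa.abs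
  have hyu : |q j + sg (q j)| = y + 1 := abs_add_sg hy
  -- membership of the lower vertices
  have low : ∀ v, v ∈ Slb j n y → v j = q j → (∀ i, i ≠ j → q i = v i / D) → v ∈ Wq j D n y q := by
    intro v hv h1 h2
    rw [mem_Wq]
    refine ⟨⟨Or.inl h1, fun i hi => ?_⟩, Slb_mono (Nat.le_succ y) hv⟩
    rw [h2 i hi]; exact hdiv (v i)
  have up : ∀ v : Fin d → ℤ, v j = q j + sg (q j) →
      (∀ i, i ≠ j → ((D : ℤ) * q i ≤ v i ∧ v i < D * q i + D) ∧ 0 ≤ v i ∧ v i < n) →
      v ∈ Wq j D n y q ∧ v ∉ Slb j n y := by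
    intro v h1 h2
    have h3 := abs_le.1 hyu.le
    refine ⟨?_, ?_⟩
    · rw [mem_Wq, mem_Slb]
      refine ⟨⟨Or.inr h1, fun i hi => (h2 i hi).1⟩, ⟨?_, ?_⟩, fun i hi => (h2 i hi).2⟩
      · rw [h1]; push_cast; linarith [h3.1]
      · rw [h1]; push_cast; linarith [h3.2]
    · intro hh
      rw [mem_Slb, h1] at hh
      have : |q j + sg (q j)| ≤ y := abs_le.2 hh.1
      rw [hyu] at this
      omega
  have hsgj : sg (a j) = sg (q j) := by rw [hqj]
  have hua : upv j a j = q j + sg (q j) := by rw [upv_j, hqj]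
  have hub : upv j b j = q j + sg (q j) := by rw [upv_j, hqj']
  rw [mem_Slb] at ha hb
  have hca : ∀ i, i ≠ j → ((D : ℤ) * q i ≤ a i ∧ a i < D * q i + D) ∧ 0 ≤ a i ∧ a i < n :=
    fun i hi => ⟨by rw [hqi i hi]; exact hdiv _, ha.2 i hi⟩
  have hcb : ∀ i, i ≠ j → ((D : ℤ) * q i ≤ b i ∧ b i < D * q i + D) ∧ 0 ≤ b i ∧ b i < n :=
    fun i hi => ⟨by rw [hqi' i hi]; exact hdiv _, hb.2 i hi⟩
  -- one step with an end above
  have hstep : ∀ u v : Fin d → ℤ, NN s(u, v) → u ∈ Wq j D n y q → v ∈ Wq j D n y q →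
      (u ∉ Slb j n y ∧ |u j| = y + 1 ∨ v ∉ Slb j n y ∧ |v j| = y + 1) →
      offT (Rin ω (Slb j n (y + 1))) T (Bx r) u v := by
    intro u v h1 hu hv huv
    refine ⟨⟨⟨h1, hO _ (mem_capF h1 hu hv ?_)⟩, (mem_Wq.1 hu).2, (mem_Wq.1 hv).2⟩, ?_⟩
    · rintro ⟨h2, h3⟩
      rcases huv with h | h
      · exact h.1 h2
      · exact h.1 h3
    · rintro c hc ⟨h2, h3⟩
      have hcj := hT c hc
      rcases huv with h | h
      · have := h2 j
        rw [hcj, sub_zero, h.2] at this
        omega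
      · have := h3 j
        rw [hcj, sub_zero, h.2] at this
        omega
  have hWa : a ∈ Wq j D n y q := low a (mem_Slb.2 ha) hqj.symm hqi
  have hWb : b ∈ Wq j D n y q := low b (mem_Slb.2 hb) hqj'.symm hqi'
  have hUa := up (upv j a) hua (fun i hi => by rw [upv_ne a hi]; exact hca i hi)
  have hUb := up (upv j b) hub (fun i hi => by rw [upv_ne b hi]; exact hcb i hi)
  have s1 := hstep a (upv j a) (nn_upv j a) hWa hUa.1 (Or.inr ⟨hUa.2, by rw [hua]; exact hyu⟩)
  have s3 := hstep (upv j b) b (nn_upv j b).swap hUb.1 hWb (Or.inl ⟨hUb.2, by rw [hub]; exact hyu⟩)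
  -- the horizontal part
  have s2 : ReflTransGen (offT (Rin ω (Slb j n (y + 1))) T (Bx r)) (upv j a) (upv j b) := by
    have hmem : ∀ z ∈ Set.Icc (fun i => min (upv j a i) (upv j b i)) (fun i => max (upv j a i) (upv j b i)),
        z ∈ Wq j D n y q ∧ z ∉ Slb j n y ∧ |z j| = y + 1 := by
      intro z hz
      have hzj : z j = q j + sg (q j) := by
        have h1 : min (upv j a j) (upv j b j) ≤ z j := hz.1 j
        have h2 : z j ≤ max (upv j a j) (upv j b j) := hz.2 j
        rw [hua, hub, min_self] at h1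
        rw [hua, hub, max_self] at h2
        exact le_antisymm h2 h1
      have h4 := up z hzj (fun i hi => by
        have h1 : min (upv j a i) (upv j b i) ≤ z i := hz.1 i
        have h2 : z i ≤ max (upv j a i) (upv j b i) := hz.2 i
        rw [upv_ne a hi, upv_ne b hi] at h1 h2
        obtain ⟨⟨a1, a2⟩, a3, a4⟩ := hca i hi
        obtain ⟨⟨b1, b2⟩, b3, b4⟩ := hcb i hi
        refine ⟨⟨(le_min a1 b1).trans h1, h2.trans_lt (max_lt a2 b2)⟩,
          (le_min a3 b3).trans h1, h2.trans_lt (max_lt a4 b4)⟩)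
      exact ⟨h4.1, h4.2, by rw [hzj]; exact hyu⟩
    refine rtg_mono ?_ (icc_conn (lo := fun i => min (upv j a i) (upv j b i))
      (hi := fun i => max (upv j a i) (upv j b i)) (a := upv j a) (b := upv j b)
      ⟨fun i => min_le_left _ _, fun i => le_max_left _ _⟩
      ⟨fun i => min_le_right _ _, fun i => le_max_right _ _⟩)
    rintro u v ⟨h1, h2, h3⟩
    exact hstep u v h1 (hmem u h2).1 (hmem v h3).1 (Or.inl ⟨(hmem u h2).2.1, (hmem u h2).2.2⟩)
  exact (ReflTransGen.head s1 s2).tail s3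

/-- lateral boundary vertices -/
noncomputable def Lt (j : Fin d) (n y : ℕ) : Finset (Fin d → ℤ) := by
  classical exact (bdy (Slb j n y)).filter (fun v => ¬ Face j y v)

/-- classes with representative in the cell `q` -/
noncomputable def Aq (j : Fin d) (r D n y : ℕ) (q : Fin d → ℤ) (ω : Cfg d) : ℕ := by
  classical exact ((CL j r n y ω).filter (fun C => Face j y (rp (Slb j n y) C) ∧
    cellF j D (rp (Slb j n y) C) = q)).card

theorem sum_Aq_le {j : Fin d} {r D m y : ℕ} (hD : 1 ≤ D) (ω : Cfg d) :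
    ∑ q ∈ Cells j m y, Aq j r D (D * m) y q ω ≤ (CL j r (D * m) y ω).card := by
  classical
  unfold Aq
  have h := Finset.card_eq_sum_card_fiberwise
    (s := (CL j r (D * m) y ω).filter (fun C => Face j y (rp (Slb j (D * m) y) C)))
    (t := Cells j m y) (f := fun C => cellF j D (rp (Slb j (D * m) y) C)) (by
      intro C hC
      rw [Finset.mem_coe, Finset.mem_filter] at hC
      exact cell_mem hD (mem_bdy.1 (CL_rp hC.1).1).1 hC.2)
  simp only [Finset.filter_filter] at h
  rw [← h]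
  exact Finset.card_filter_le _ _

/-- **the deterministic step** -/
theorem step {j : Fin d} {r D m y : ℕ} (hD : 1 ≤ D) (hr : r ≤ y) (ω : Cfg d) :
    (CL j r (D * m) (y + 1) ω).card ≤ (Lt j (D * m) y).card +
      ∑ q ∈ Cells j m y, (Aq j r D (D * m) y q ω -
        (Set.indicator {ω' | CapO j D (D * m) y q ω'} (fun ω' => Aq j r D (D * m) y q ω' - 1) ω)) := by
  classical
  set n := D * m with hn
  have hex : ∀ C : Set (Fin d → ℤ), C ∈ CL j r n (y + 1) ω → ∃ C' ∈ CL j r n y ω, C' ⊆ C :=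
    fun C hC => CL_sub hr hC
  choose! Φ hΦ hΦs using hex
  set S' := CL j r n (y + 1) ω with hS'
  have hρ : ∀ C ∈ S', rp (Slb j n y) (Φ C) ∈ bdy (Slb j n y) ∧ rp (Slb j n y) (Φ C) ∈ C :=
    fun C hC => ⟨(CL_rp (hΦ C hC)).1, hΦs C hC (CL_rp (hΦ C hC)).2⟩
  have hinj : ∀ C ∈ S', ∀ C' ∈ S', Φ C = Φ C' → C = C' := by
    intro C hC C' hC' h
    refine CL_eq hC hC' (hρ C hC).2 (b := rp (Slb j n y) (Φ C)) ?_ .refl
    rw [h]; exact (hρ C' hC').2
  -- lateral part
  have h1 : (S'.filter (fun C => ¬ Face j y (rp (Slb j n y) (Φ C)))).card ≤ (Lt j n y).card := by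
    apply Finset.card_le_card_of_injOn (fun C => rp (Slb j n y) (Φ C))
    · intro C hC
      rw [Finset.mem_coe, Finset.mem_filter] at hC
      unfold Lt
      rw [Finset.mem_coe, Finset.mem_filter]
      exact ⟨(hρ C hC.1).1, hC.2⟩
    · intro C hC C' hC' h
      rw [Finset.mem_coe, Finset.mem_filter] at hC hC'
      refine CL_eq hC.1 hC'.1 (hρ C hC.1).2 (b := rp (Slb j n y) (Φ C)) ?_ .refl
      simp only at h
      rw [h]; exact (hρ C' hC'.1).2
  -- the cells
  have h2 : ∀ q, ((S'.filter (fun C => Face j y (rp (Slb j n y) (Φ C)))).filter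
      (fun C => cellF j D (rp (Slb j n y) (Φ C)) = q)).card ≤ Aq j r D n y q ω -
        (Set.indicator {ω' | CapO j D n y q ω'} (fun ω' => Aq j r D n y q ω' - 1) ω) := by
    intro q
    have h3 : ((S'.filter (fun C => Face j y (rp (Slb j n y) (Φ C)))).filter
        (fun C => cellF j D (rp (Slb j n y) (Φ C)) = q)).card ≤ Aq j r D n y q ω := by
      unfold Aq
      apply Finset.card_le_card_of_injOn Φ
      · intro C hC
        rw [Finset.mem_coe, Finset.mem_filter, Finset.mem_filter] at hC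
        rw [Finset.mem_coe, Finset.mem_filter]
        exact ⟨hΦ C hC.1.1, hC.1.2, hC.2⟩
      · intro C hC C' hC' h
        rw [Finset.mem_coe, Finset.mem_filter, Finset.mem_filter] at hC hC'
        exact hinj C hC.1.1 C' hC'.1.1 h
    by_cases hO : CapO j D n y q ω
    · rw [Set.indicator_of_mem (show ω ∈ {ω' | CapO j D n y q ω'} from hO)]
      have h4 : ((S'.filter (fun C => Face j y (rp (Slb j n y) (Φ C)))).filter
          (fun C => cellF j D (rp (Slb j n y) (Φ C)) = q)).card ≤ 1 := by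
        rw [Finset.card_le_one]
        intro C hC C' hC'
        rw [Finset.mem_filter, Finset.mem_filter] at hC hC'
        refine CL_eq hC.1.1 hC'.1.1 (hρ C hC.1.1).2 (hρ C' hC'.1.1).2 ?_
        refine cap_conn hD hr (mem_bdy.1 (hρ C hC.1.1).1).1 (mem_bdy.1 (hρ C' hC'.1.1).1).1
          hC.1.2 hC'.1.2 (hC.2.trans hC'.2.symm) (by rw [hC.2]; exact hO) ?_
        intro c hc
        exact (mem_Ctr.1 (mem_Ty.1 hc).1).1
      omega
    · rw [Set.indicator_of_notMem (show ω ∉ {ω' | CapO j D n y q ω'} from hO)]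
      omega
  have h5 := Finset.card_eq_sum_card_fiberwise
    (s := S'.filter (fun C => Face j y (rp (Slb j n y) (Φ C))))
    (t := Cells j m y) (f := fun C => cellF j D (rp (Slb j n y) (Φ C))) (by
      intro C hC
      rw [Finset.mem_coe, Finset.mem_filter] at hC
      exact cell_mem hD (mem_bdy.1 (hρ C hC.1).1).1 hC.2)
  have h6 := Finset.card_filter_add_card_filter_not (s := S')
    (fun C => Face j y (rp (Slb j n y) (Φ C)))
  have h7 := Finset.sum_le_sum (s := Cells j m y) (fun q _ => h2 q)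
  omega

end Pool.Agent.H29.HP
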