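import Pool.Agent.H29.HP.Loc

set_option autoImplicit false

/-! No three infinite clusters (helper29): `n3 : N3`. -/

namespace Pool.Agent.H29.HP

open Relation MeasureTheory Pool.Agent.H29.FK

variable {d : ℕ}

theorem card_Lt {j : Fin d} {n y : ℕ} (hn : 2 ≤ n) :
    (Lt j n y).card ≤ (2 * y + 1) * (2 * (d - 1) * n ^ (d - 1 - 1)) := by
  classical
  set I : Finset (Fin d → ℤ) := Fintype.piFinset (fun i => if i = j then
    Finset.Icc (-(y : ℤ)) y else Finset.Ico (1 : ℤ) (n - 1)) with hI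
  have cI : I.card = (2 * y + 1) * (n - 2) ^ (d - 1) := by
    rw [hI, Fintype.card_piFinset, ← prod_ite_one j]
    apply Finset.prod_congr rfl
    intro i _
    by_cases hi : i = j
    · rw [if_pos hi, if_pos hi, Int.card_Icc]; omega
    · rw [if_neg hi, if_neg hi, Int.card_Ico]; omega
  have memI : ∀ x, x ∈ I ↔ (-(y : ℤ) ≤ x j ∧ x j ≤ y) ∧ ∀ i, i ≠ j → 1 ≤ x i ∧ x i < n - 1 := by
    intro x
    rw [hI, Fintype.mem_piFinset]
    constructor
    · intro h
      constructor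
      · have := h j
        rw [if_pos rfl, Finset.mem_Icc] at this
        exact this
      · intro i hi
        have := h i
        rw [if_neg hi, Finset.mem_Ico] at this
        exact this
    · rintro ⟨h1, h2⟩ i
      by_cases hi : i = j
      · rw [if_pos hi, Finset.mem_Icc, hi]; exact h1
      · rw [if_neg hi, Finset.mem_Ico]; exact h2 i hi
  have hsub : I ⊆ Slb j n y := by
    intro x hx
    rw [memI] at hx
    rw [mem_Slb]
    exact ⟨hx.1, fun i hi => ⟨by have := (hx.2 i hi).1; omega, by have := (hx.2 i hi).2; omega⟩⟩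
  have hLt : Lt j n y ⊆ Slb j n y \ I := by
    intro v hv
    unfold Lt at hv
    rw [Finset.mem_filter, mem_bdy] at hv
    obtain ⟨⟨h1, z, h2, h3⟩, h4⟩ := hv
    rw [Finset.mem_sdiff]
    refine ⟨h1, fun h5 => ?_⟩
    rw [memI] at h5
    rw [mem_Slb] at h1
    obtain ⟨i, h6, h7⟩ := h2.coord
    apply h3
    rw [mem_Slb]
    by_cases hi : i = j
    · exfalso
      subst hi
      apply h3
      rw [mem_Slb]
      unfold Face at h4
      push Not at h4
      refine ⟨by omega, fun l hl => ?_⟩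
      rw [h6 l hl]; exact h1.2 l hl
    · refine ⟨by rw [h6 j (Ne.symm hi)]; exact h1.1, fun l hl => ?_⟩
      by_cases hl' : l = i
      · subst hl'
        have := h5.2 l hl
        omega
      · rw [h6 l hl']; exact h1.2 l hl
  refine (Finset.card_le_card hLt).trans ?_
  rw [Finset.card_sdiff_of_subset hsub, card_Slb, cI, ← Nat.mul_sub]
  apply Nat.mul_le_mul_left
  have := pow_diff (n - 2) (d - 1)
  rw [show n - 2 + 2 = n by omega] at this
  omega

/-- the iterated recursion -/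
theorem iter {j : Fin d} {r D m : ℕ} {ε : ℝ} {μ : Measure (Cfg d)} [IsProbabilityMeasure μ]
    (hD : 1 ≤ D) (hn : 2 ≤ D * m) (hε : 0 ≤ ε) (hε1 : ε ≤ 1) (h : IT ε μ) {θ : ℝ}
    (hθ : θ = ε ^ ((2 * D ^ (d - 1)) * (2 * D ^ (d - 1)))) (k : ℕ) :
    ∫ ω, ((CL j r (D * m) (r + k) ω).card : ℝ) ∂μ ≤
      (1 - θ) ^ k * ((2 * r + 1) * ((D * m : ℕ) : ℝ) ^ (d - 1)) + 2 * (m : ℝ) ^ (d - 1) +
        (∑ l ∈ Finset.range k, (2 * ((r : ℝ) + l) + 1) * (2 * ((d - 1 : ℕ) : ℝ))) *
          ((D * m : ℕ) : ℝ) ^ (d - 1 - 1) := by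
  have hθ0 : 0 ≤ θ := by rw [hθ]; positivity
  have hθ1 : θ ≤ 1 := by rw [hθ]; exact pow_le_one₀ hε hε1
  induction k with
  | zero =>
    have h1 : ∫ ω, ((CL j r (D * m) r ω).card : ℝ) ∂μ ≤
        (2 * r + 1) * ((D * m : ℕ) : ℝ) ^ (d - 1) := by
      have h2 : ∫ ω, ((CL j r (D * m) r ω).card : ℝ) ∂μ ≤
          ∫ ω, ((2 * r + 1) * ((D * m : ℕ) : ℝ) ^ (d - 1) : ℝ) ∂μ := by
        apply integral_mono (int_bdd (meas_CL le_rfl) (fun ω => CL_card_le ω)) (integrable_const _)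
        intro ω
        simp only
        exact_mod_cast CL_card_le (j := j) (r := r) (n := D * m) (y := r) ω
      refine h2.trans_eq ?_
      simp
    simp only [add_zero, pow_zero, one_mul, Finset.range_zero, Finset.sum_empty, zero_mul]
    have h3 : (0 : ℝ) ≤ 2 * (m : ℝ) ^ (d - 1) := by positivity
    linarith
  | succ k ih =>
    have h1 := recur (j := j) (r := r) (D := D) (m := m) (y := r + k) hD (by omega) hε hε1 h hθ
    have h2 : ((Lt j (D * m) (r + k)).card : ℝ) ≤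
        (2 * ((r : ℝ) + k) + 1) * (2 * ((d - 1 : ℕ) : ℝ)) * ((D * m : ℕ) : ℝ) ^ (d - 1 - 1) := by
      have h3 := card_Lt (j := j) (y := r + k) hn
      have h4 : ((Lt j (D * m) (r + k)).card : ℝ) ≤
        (((2 * (r + k) + 1) * (2 * (d - 1) * (D * m) ^ (d - 1 - 1)) : ℕ) : ℝ) := by
        exact_mod_cast h3
      refine h4.trans_eq ?_
      push_cast
      ring
    have h5 := mul_le_mul_of_nonneg_left ih (sub_nonneg.2 hθ1)
    have h6 : 0 ≤ (∑ l ∈ Finset.range k, (2 * ((r : ℝ) + l) + 1) * (2 * ((d - 1 : ℕ) : ℝ))) *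
          ((D * m : ℕ) : ℝ) ^ (d - 1 - 1) := by positivity
    rw [Finset.sum_range_succ, ← add_assoc]
    rw [pow_succ]
    nlinarith [mul_nonneg hθ0 h6]

/-- the expected number of trifurcation boxes -/
theorem le_exp {j : Fin d} {r n y : ℕ} {μ : Measure (Cfg d)} [IsProbabilityMeasure μ] {κ : ℝ}
    (hr : r ≤ y) (h : ∀ c ∈ Ctr j r n, κ ≤ μ.real {ω | c ∈ Ty j r n y ω}) :
    κ * (Ctr j r n).card ≤ ∫ ω, ((CL j r n y ω).card : ℝ) ∂μ := by
  classical
  have hm : ∀ c, MeasurableSet {ω | c ∈ Ty j r n y ω} := by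
    intro c
    apply meas_loc_set (eF (Slb j n y))
    intro ω ω' hh
    rw [Set.mem_ofPred_eq, Set.mem_ofPred_eq, Ty_congr hr (fun e he => hh e (mem_eF.2 he))]
  have h1 : κ * (Ctr j r n).card ≤ ∑ c ∈ Ctr j r n, μ.real {ω | c ∈ Ty j r n y ω} := by
    rw [mul_comm, ← nsmul_eq_mul, ← Finset.sum_const]
    exact Finset.sum_le_sum h
  refine h1.trans ?_
  have h2 : ∑ c ∈ Ctr j r n, μ.real {ω | c ∈ Ty j r n y ω} =
      ∫ ω, ∑ c ∈ Ctr j r n, ({ω | c ∈ Ty j r n y ω} : Set (Cfg d)).indicator 1 ω ∂μ := by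
    rw [integral_finsetSum]
    · apply Finset.sum_congr rfl
      intro c _
      rw [integral_indicator_one (hm c)]
    · intro c _
      exact (integrable_const (1 : ℝ)).indicator (hm c)
  rw [h2]
  apply integral_mono _ (int_bdd (meas_CL hr) (fun ω => CL_card_le ω))
  · intro ω
    simp only
    have h3 : ∑ c ∈ Ctr j r n, ({ω | c ∈ Ty j r n y ω} : Set (Cfg d)).indicator (1 : Cfg d → ℝ) ω =
        ((Ty j r n y ω).card : ℝ) := by
      have h4 : Ty j r n y ω = (Ctr j r n).filter (fun c => c ∈ Ty j r n y ω) := by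
        ext c
        rw [Finset.mem_filter]
        exact ⟨fun hh => ⟨(mem_Ty.1 hh).1, hh⟩, fun hh => hh.2⟩
      rw [h4, Finset.card_filter]
      push_cast
      apply Finset.sum_congr rfl
      intro c _
      by_cases hc : c ∈ Ty j r n y ω
      · rw [if_pos hc, Set.indicator_of_mem (show ω ∈ {ω | c ∈ Ty j r n y ω} from hc)]; rfl
      · rw [if_neg hc, Set.indicator_of_notMem (show ω ∉ {ω | c ∈ Ty j r n y ω} from hc)]
    rw [h3]
    exact_mod_cast Ty_card_le hr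
  · exact integrable_finsetSum _ (fun c _ => (integrable_const (1 : ℝ)).indicator (hm c))

theorem card_Ctr_ge (j : Fin d) (r t : ℕ) : t ^ (d - 1) ≤ (Ctr j r ((2 * r + 1) * t)).card := by
  classical
  have h1 : (hb j t).card = 1 * t ^ (d - 1) := by
    unfold hb
    rw [Fintype.card_piFinset, ← prod_ite_one j]
    apply Finset.prod_congr rfl
    intro i _
    by_cases hi : i = j
    · rw [if_pos hi, if_pos hi, Finset.card_singleton]
    · rw [if_neg hi, if_neg hi, Int.card_Ico]; omega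
  rw [one_mul] at h1
  rw [← h1]
  apply Finset.card_le_card_of_injOn
    (fun z => (fun i => if i = j then 0 else (2 * (r : ℤ) + 1) * z i + r : Fin d → ℤ))
  · intro z hz
    rw [Finset.mem_coe, mem_hb] at hz
    rw [Finset.mem_coe, mem_Ctr]
    refine ⟨by simp, fun i hi => ?_⟩
    obtain ⟨h2, h3⟩ := hz.2 i hi
    simp only [if_neg hi]
    have h4 : z i + 1 ≤ t := h3
    have h5 : (2 * (r : ℤ) + 1) * (z i + 1) ≤ (2 * r + 1) * t := by gcongr
    have h6 : (0 : ℤ) ≤ (2 * (r : ℤ) + 1) * z i := by positivity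
    refine ⟨by positivity, by push_cast; nlinarith, ?_, by push_cast; nlinarith⟩
    rw [Int.mul_add_emod_self_left]
    exact Int.emod_eq_of_lt (by positivity) (by omega)
  · intro z hz z' hz' h
    rw [Finset.mem_coe, mem_hb] at hz hz'
    funext i
    by_cases hi : i = j
    · rw [hi, hz.1, hz'.1]
    · have := congrFun h i
      simp only [if_neg hi] at this
      have h2 : (2 * (r : ℤ) + 1) * z i = (2 * r + 1) * z' i := by linarith
      exact mul_left_cancel₀ (by positivity) h2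

theorem IT.mono {ε ε' : ℝ} (h : ε' ≤ ε) {μ : Measure (Cfg d)} (hi : IT ε μ) : IT ε' μ := by
  intro e B hB hD
  refine le_trans ?_ (hi e B hB hD)
  gcongr

/-- **no three infinite clusters** -/
theorem n3 : N3 := by
  intro d j ε₀ μ hd hε₀ hμ hIT₀ hinv
  by_contra hcon
  obtain ⟨r, hbad⟩ := exists_bad hcon
  set ε := min ε₀ 1 with hεdef
  have hε : 0 < ε := lt_min hε₀ one_pos
  have hε1 : ε ≤ 1 := min_le_right _ _
  have hIT : IT ε μ := hIT₀.mono (min_le_left _ _)
  obtain ⟨κ, hκ, hTy⟩ := Ty_prob (j := j) hε hIT hinv hbad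
  obtain ⟨b, rfl⟩ : ∃ b, d = b + 2 := ⟨d - 2, by omega⟩
  set s : ℕ := 2 * r + 1 with hs
  have hs1 : 1 ≤ s := by omega
  -- choice of `D`
  obtain ⟨D, hDlt⟩ := exists_nat_gt (4 * (s : ℝ) ^ (b + 1) / κ)
  have hD0 : (0 : ℝ) < D := lt_of_le_of_lt (by positivity) hDlt
  have hD1 : 1 ≤ D := by exact_mod_cast hD0
  have hDpow : 4 * (s : ℝ) ^ (b + 1) < κ * (D : ℝ) ^ (b + 1) := by
    have h1 : 4 * (s : ℝ) ^ (b + 1) < κ * D := by
      rw [div_lt_iff₀ hκ] at hDlt; linarith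
    have h2 : (D : ℝ) ≤ (D : ℝ) ^ (b + 1) :=
      le_self_pow₀ (by exact_mod_cast hD1) (Nat.succ_ne_zero b)
    have := mul_le_mul_of_nonneg_left h2 hκ.le
    linarith
  -- choice of `k`
  set θ : ℝ := ε ^ ((2 * D ^ (b + 2 - 1)) * (2 * D ^ (b + 2 - 1))) with hθ
  have hθ0 : 0 < θ := by rw [hθ]; positivity
  have hθ1 : θ ≤ 1 := by rw [hθ]; exact pow_le_one₀ hε.le hε1
  set P : ℝ := (s : ℝ) * ((s : ℝ) * D) ^ (b + 1) with hP
  have hP0 : 0 < P := by
    rw [hP]
    have : (0 : ℝ) < s := by exact_mod_cast hs1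
    positivity
  have hQ0 : 0 < κ * (D : ℝ) ^ (b + 1) / 4 := by positivity
  obtain ⟨k, hk⟩ := exists_pow_lt_of_lt_one (show 0 < κ * (D : ℝ) ^ (b + 1) / 4 / P by positivity)
    (show 1 - θ < 1 by linarith)
  have hk' : (1 - θ) ^ k * P < κ * (D : ℝ) ^ (b + 1) / 4 := by
    rwa [lt_div_iff₀ hP0] at hk
  -- choice of the size
  set S : ℝ := ∑ l ∈ Finset.range k, (2 * ((r : ℝ) + l) + 1) * (2 * ((b + 2 - 1 : ℕ) : ℝ)) with hS
  obtain ⟨x, hx⟩ := exists_nat_gt (S * ((s : ℝ) * D) ^ b / (κ * (D : ℝ) ^ (b + 1) / 4))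
  have hS0 : 0 ≤ S := by rw [hS]; positivity
  have hx' : S * ((s : ℝ) * D) ^ b < κ * (D : ℝ) ^ (b + 1) / 4 * (x + 2) := by
    rw [div_lt_iff₀ hQ0] at hx
    nlinarith
  set X : ℕ := x + 2 with hX
  have hXr : (X : ℝ) = x + 2 := by rw [hX]; push_cast; ring
  rw [← hXr] at hx'
  have hn : 2 ≤ D * (s * X) := by
    have h1 : 2 ≤ X := by omega
    calc 2 = 1 * (1 * 2) := by norm_num
      _ ≤ D * (s * X) := by gcongr
  have e1 := iter (j := j) (r := r) (D := D) (m := s * X) (μ := μ) hD1 hn hε.le hε1 hIT hθ k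
  have e2 := le_exp (n := D * (s * X)) (y := r + k) (by omega)
    (hTy (D * (s * X)) (r + k) (by omega))
  have e3 : (((D * X) ^ (b + 2 - 1) : ℕ) : ℝ) ≤ (Ctr j r (D * (s * X))).card := by
    have := card_Ctr_ge j r (D * X)
    rw [← hs, show s * (D * X) = D * (s * X) by ring] at this
    exact_mod_cast this
  have e4 := mul_le_mul_of_nonneg_left e3 hκ.le
  rw [show b + 2 - 1 = b + 1 by omega] at e1 e4
  rw [show b + 1 - 1 = b by omega] at e1
  push_cast at e1 e4
  have hXpos : (0 : ℝ) < X := by rw [hXr]; positivity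
  have hXb : (0 : ℝ) < (X : ℝ) ^ b := by positivity
  -- put together
  have e5 : κ * (D : ℝ) ^ (b + 1) * X * X ^ b ≤
      ((1 - θ) ^ k * P * X + 2 * (s : ℝ) ^ (b + 1) * X + S * ((s : ℝ) * D) ^ b) * X ^ b := by
    have h1 : κ * ((D : ℝ) * X) ^ (b + 1) = κ * (D : ℝ) ^ (b + 1) * X * X ^ b := by
      rw [mul_pow]; ring
    have h2 : (1 - θ) ^ k * ((2 * (r : ℝ) + 1) * ((D : ℝ) * (s * X)) ^ (b + 1)) =
        (1 - θ) ^ k * P * X * X ^ b := by
      rw [hP, hs]; push_cast; rw [mul_pow, mul_pow, mul_pow]; ring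
    have h3 : 2 * ((s : ℝ) * X) ^ (b + 1) = 2 * (s : ℝ) ^ (b + 1) * X * X ^ b := by
      rw [mul_pow]; ring
    have h4 : ((D : ℝ) * (s * X)) ^ b = ((s : ℝ) * D) ^ b * X ^ b := by
      rw [mul_pow, mul_pow, mul_pow]; ring
    rw [h1] at e4
    rw [h2, h3, h4] at e1
    have h5 := e4.trans (e2.trans e1)
    refine h5.trans_eq ?_
    rw [hS]
    push_cast
    ring
  have e6 := le_of_mul_le_mul_right e5 hXb
  have h7 := mul_lt_mul_of_pos_right hk' hXpos
  have h8 := mul_lt_mul_of_pos_right hDpow hXpos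
  nlinarith

end Pool.Agent.H29.HP
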