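import Mathlib

set_option autoImplicit false

/-! Trifurcation boxes are at most as many as the boundary classes (helper29). -/

namespace Pool.Agent.H29.HP

open Relation

section hit

variable {V : Type*}

/-- first hit of `S` -/
theorem hit {r : V → V → Prop} {S : Set V} {a b : V} (h : ReflTransGen r a b) (hb : b ∈ S) :
    ∃ s ∈ S, ReflTransGen (fun u v => r u v ∧ u ∉ S) a s := by
  induction h using ReflTransGen.head_induction_on with
  | refl => exact ⟨b, hb, .refl⟩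
  | @head a c h1 h2 ih =>
    by_cases ha : a ∈ S
    · exact ⟨a, ha, .refl⟩
    · obtain ⟨s, hs, h⟩ := ih
      exact ⟨s, hs, .head ⟨h1, ha⟩ h⟩

theorem rtg_mono {r r' : V → V → Prop} (h : ∀ a b, r a b → r' a b) {a b : V}
    (hab : ReflTransGen r a b) : ReflTransGen r' a b := by
  induction hab with
  | refl => exact .refl
  | tail _ h2 ih => exact .tail ih (h _ _ h2)

theorem rtg_symm {r : V → V → Prop} (h : ∀ a b, r a b → r b a) {a b : V}
    (hab : ReflTransGen r a b) : ReflTransGen r b a := by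
  induction hab with
  | refl => exact .refl
  | tail _ h2 ih => exact .head (h _ _ h2) ih

end hit

variable {V ι : Type*}

/-- `R` without the edges inside `B` -/
def offB (R : V → V → Prop) (B : Set V) (a b : V) : Prop := R a b ∧ ¬ (a ∈ B ∧ b ∈ B)

/-- `R` without the edges inside the sets `B x`, `x ∈ T` -/
def offT (R : V → V → Prop) (T : Finset ι) (B : ι → Set V) (a b : V) : Prop :=
  R a b ∧ ∀ x ∈ T, ¬ (a ∈ B x ∧ b ∈ B x)

variable {R : V → V → Prop} {B : ι → Set V} {D : Finset V} {f : V → ℕ}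

theorem offB_symm (hR : ∀ a b, R a b → R b a) (S : Set V) (a b : V) (h : offB R S a b) :
    offB R S b a := ⟨hR _ _ h.1, fun hh => h.2 ⟨hh.2, hh.1⟩⟩

theorem offT_symm (hR : ∀ a b, R a b → R b a) (T : Finset ι) (a b : V) (h : offT R T B a b) :
    offT R T B b a := ⟨hR _ _ h.1, fun x hx hh => h.2 x hx ⟨hh.2, hh.1⟩⟩

/-- the data of a trifurcation -/
structure Tr (R : V → V → Prop) (S : Set V) (D : Finset V) (f : V → ℕ) (r l m : V) : Prop where
  rD : r ∈ D
  lD : l ∈ D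
  mD : m ∈ D
  hl : ∃ b ∈ S, ReflTransGen (offB R S) l b
  hm : ∃ b ∈ S, ReflTransGen (offB R S) m b
  hr : ∃ b ∈ S, ReflTransGen R r b
  rmin : ∀ w ∈ D, ReflTransGen R l w → f r ≤ f w
  lmin : ∀ w ∈ D, ReflTransGen (offB R S) l w → f l ≤ f w
  lt : f m < f l
  rl : ¬ ReflTransGen (offB R S) r l
  rm : ¬ ReflTransGen (offB R S) r m

theorem key {R : V → V → Prop} {S S' : Set V} (hR : ∀ a b, R a b → R b a) (hd : Disjoint S S')
    (hS : ∀ a ∈ S, ∀ b ∈ S, ReflTransGen (fun u v => R u v ∧ u ∈ S ∧ v ∈ S) a b)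
    (hS' : ∀ a ∈ S', ∀ b ∈ S', ReflTransGen (fun u v => R u v ∧ u ∈ S' ∧ v ∈ S') a b)
    {r l m m' : V} (h : Tr R S D f r l m) (h' : Tr R S' D f r l m') {s : V} (hs : s ∈ S)
    (hp : ReflTransGen (fun u v => R u v ∧ u ∉ S ∪ S') l s) : False := by
  have hsym := offB_symm hR S
  have hsym' := offB_symm hR S'
  -- inside `S` one avoids `S'` and conversely
  have in1 : ∀ a ∈ S, ∀ b ∈ S, ReflTransGen (offB R S') a b := by
    intro a ha b hb
    refine rtg_mono ?_ (hS a ha b hb)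
    rintro u v ⟨h1, h2, h3⟩
    exact ⟨h1, fun hh => Set.disjoint_left.1 hd h2 hh.1⟩
  have in2 : ∀ a ∈ S', ∀ b ∈ S', ReflTransGen (offB R S) a b := by
    intro a ha b hb
    refine rtg_mono ?_ (hS' a ha b hb)
    rintro u v ⟨h1, h2, h3⟩
    exact ⟨h1, fun hh => Set.disjoint_left.1 hd hh.1 h2⟩
  have off1 : ∀ a b, (R a b ∧ a ∉ S ∪ S') → offB R S a b := fun a b hh =>
    ⟨hh.1, fun h3 => hh.2 (Or.inl h3.1)⟩
  have off2 : ∀ a b, (R a b ∧ a ∉ S ∪ S') → offB R S' a b := fun a b hh =>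
    ⟨hh.1, fun h3 => hh.2 (Or.inr h3.1)⟩
  have hls : ReflTransGen (offB R S') l s := rtg_mono off2 hp
  -- `r` is not joined to `S` off `S'`
  have hrS : ∀ b ∈ S, ¬ ReflTransGen (offB R S') r b := by
    intro b hb hh
    exact h'.rl ((hh.trans (in1 b hb s hs)).trans (rtg_symm hsym' hls))
  -- `r` is joined to `S'` off `S`
  obtain ⟨b0, hb0, hrb0⟩ := h.hr
  obtain ⟨s2, hs2, hrs2⟩ := hit hrb0 (S := S ∪ S') (Or.inl hb0)
  rcases hs2 with hs2 | hs2
  · exact hrS s2 hs2 (rtg_mono off2 hrs2)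
  have hrs2' : ReflTransGen (offB R S) r s2 := rtg_mono off1 hrs2
  obtain ⟨b1, hb1, hmb1⟩ := h.hm
  obtain ⟨s3, hs3, hms3⟩ := hit hmb1 (S := S ∪ S') (Or.inl hb1)
  have hms3' : ReflTransGen (fun u v => R u v ∧ u ∉ S ∪ S') m s3 :=
    rtg_mono (fun a b hh => ⟨hh.1.1, hh.2⟩) hms3
  rcases hs3 with hs3 | hs3
  · have : ReflTransGen (offB R S') l m :=
      (hls.trans (in1 s hs s3 hs3)).trans (rtg_symm hsym' (rtg_mono off2 hms3'))
    exact absurd (h'.lmin m h.mD this) (not_le.2 h.lt)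
  · exact h.rm ((hrs2'.trans (in2 s2 hs2 s3 hs3)).trans (rtg_symm hsym (rtg_mono off1 hms3')))

theorem exists_tr (hR : ∀ a b, R a b → R b a) (hf : Function.Injective f) {S : Set V}
    (hS : ∀ a ∈ S, ∀ b ∈ S, ReflTransGen (fun u v => R u v ∧ u ∈ S ∧ v ∈ S) a b)
    (htri : ∃ v : Fin 3 → V, (∀ i, v i ∈ D ∧ ∃ b ∈ S, ReflTransGen (offB R S) b (v i)) ∧
      ∀ i j, i ≠ j → ¬ ReflTransGen (offB R S) (v i) (v j)) : ∃ r l m, Tr R S D f r l m := by
  classical
  obtain ⟨v, hv, hne⟩ := htri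
  have hsym := offB_symm hR S
  have toR : ∀ {a b}, ReflTransGen (offB R S) a b → ReflTransGen R a b := fun h =>
    rtg_mono (fun _ _ hh => hh.1) h
  -- minimal representatives
  have hmin : ∀ i, ∃ l ∈ D, ReflTransGen (offB R S) (v i) l ∧
      ∀ w ∈ D, ReflTransGen (offB R S) (v i) w → f l ≤ f w := by
    intro i
    obtain ⟨l, hl, hlm⟩ := Finset.exists_min_image
      (D.filter (fun w => ReflTransGen (offB R S) (v i) w)) f ⟨v i, Finset.mem_filter.2 ⟨(hv i).1, .refl⟩⟩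
    rw [Finset.mem_filter] at hl
    exact ⟨l, hl.1, hl.2, fun w hw hh => hlm w (Finset.mem_filter.2 ⟨hw, hh⟩)⟩
  choose l lD hvl lmin using hmin
  obtain ⟨r, hr, hrm⟩ := Finset.exists_min_image
    (D.filter (fun w => ReflTransGen R (v 0) w)) f ⟨v 0, Finset.mem_filter.2 ⟨(hv 0).1, .refl⟩⟩
  rw [Finset.mem_filter] at hr
  obtain ⟨b0, hb0, hb0v⟩ := (hv 0).2
  -- all `l i` are in the same `R` component
  have hconn : ∀ i, ReflTransGen R (v 0) (l i) := by
    intro i
    obtain ⟨bi, hbi, hbiv⟩ := (hv i).2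
    exact (((rtg_symm hR (toR hb0v)).trans (rtg_mono (fun _ _ hh => hh.1) (hS b0 hb0 bi hbi))).trans
      (toR hbiv)).trans (toR (hvl i))
  have hli : ∀ i, ∃ b ∈ S, ReflTransGen (offB R S) (l i) b := by
    intro i
    obtain ⟨bi, hbi, hbiv⟩ := (hv i).2
    exact ⟨bi, hbi, (rtg_symm hsym (hvl i)).trans (rtg_symm hsym hbiv)⟩
  have hlne : ∀ i j, i ≠ j → ¬ ReflTransGen (offB R S) (l i) (l j) := by
    intro i j hij hh
    exact hne i j hij (((hvl i).trans hh).trans (rtg_symm hsym (hvl j)))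
  -- at most one of the classes contains `r`
  have hr1 : ∀ i j, i ≠ j → ReflTransGen (offB R S) r (l i) → ¬ ReflTransGen (offB R S) r (l j) := by
    intro i j hij h1 h2
    exact hlne i j hij ((rtg_symm hsym h1).trans h2)
  have hpair : ∃ i j, i ≠ j ∧ ¬ ReflTransGen (offB R S) r (l i) ∧
      ¬ ReflTransGen (offB R S) r (l j) := by
    by_cases h0 : ReflTransGen (offB R S) r (l 0)
    · exact ⟨1, 2, by decide, hr1 0 1 (by decide) h0, hr1 0 2 (by decide) h0⟩
    · by_cases h1 : ReflTransGen (offB R S) r (l 1)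
      · exact ⟨0, 2, by decide, h0, hr1 1 2 (by decide) h1⟩
      · exact ⟨0, 1, by decide, h0, h1⟩
  have hfin : ∀ i j, ¬ ReflTransGen (offB R S) r (l i) → ¬ ReflTransGen (offB R S) r (l j) →
      f (l j) < f (l i) → ∃ r l m, Tr R S D f r l m := by
    intro i j hi hj hlt
    refine ⟨r, l i, l j, hr.1, lD i, lD j, hli i, hli j, ?_, ?_, ?_, hlt, hi, hj⟩
    · exact ⟨b0, hb0, (rtg_symm hR hr.2).trans (rtg_symm hR (toR hb0v))⟩
    · intro w hw hh
      exact hrm w (Finset.mem_filter.2 ⟨hw, (hconn i).trans hh⟩)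
    · intro w hw hh
      exact lmin i w hw ((hvl i).trans hh)
  obtain ⟨i, j, hij, hi, hj⟩ := hpair
  rcases lt_trichotomy (f (l i)) (f (l j)) with h | h | h
  · exact hfin j i hj hi h
  · exfalso
    apply hlne i j hij
    rw [hf h]
  · exact hfin i j hi hj h

/-- the boundary classes which meet a box -/
def cls (R : V → V → Prop) (T : Finset ι) (B : ι → Set V) (D : Finset V) : Set (Set V) :=
  {C | (∃ v ∈ D, C = {u | ReflTransGen (offT R T B) v u}) ∧ ∃ x ∈ T, ∃ b ∈ B x, b ∈ C}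

theorem cls_finite (R : V → V → Prop) (T : Finset ι) (B : ι → Set V) (D : Finset V) :
    (cls R T B D).Finite := by
  apply ((D.finite_toSet).image (fun v => {u | ReflTransGen (offT R T B) v u})).subset
  rintro C ⟨⟨v, hv, rfl⟩, _⟩
  exact ⟨v, hv, rfl⟩

/-- a boundary vertex joined to a box: its class off all the boxes meets a box -/
theorem mem_cls {T : Finset ι} {v : V} (hv : v ∈ D) {x : ι} (hx : x ∈ T) {b : V} (hb : b ∈ B x)
    (h : ReflTransGen R v b) : {u | ReflTransGen (offT R T B) v u} ∈ cls R T B D := by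
  refine ⟨⟨v, hv, rfl⟩, ?_⟩
  obtain ⟨s, hs, hh⟩ := hit h (S := {u | ∃ x ∈ T, u ∈ B x}) ⟨x, hx, hb⟩
  obtain ⟨y, hy, hsy⟩ := hs
  refine ⟨y, hy, s, hsy, rtg_mono ?_ hh⟩
  rintro a c ⟨h1, h2⟩
  exact ⟨h1, fun z hz hh => h2 ⟨z, hz, hh.1⟩⟩

theorem tri_count [Countable V] (hR : ∀ a b, R a b → R b a) (T : Finset ι)
    (hdisj : ∀ x ∈ T, ∀ y ∈ T, x ≠ y → Disjoint (B x) (B y))
    (hS : ∀ x ∈ T, ∀ a ∈ B x, ∀ b ∈ B x, ReflTransGen (fun u v => R u v ∧ u ∈ B x ∧ v ∈ B x) a b)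
    (htri : ∀ x ∈ T, ∃ v : Fin 3 → V,
      (∀ i, v i ∈ D ∧ ∃ b ∈ B x, ReflTransGen (offB R (B x)) b (v i)) ∧
      ∀ i j, i ≠ j → ¬ ReflTransGen (offB R (B x)) (v i) (v j)) :
    T.card ≤ (cls R T B D).ncard := by
  classical
  obtain ⟨f, hf⟩ := exists_injective_nat V
  have hex : ∀ x : T, ∃ p : V × V × V, Tr R (B x) D f p.1 p.2.1 p.2.2 := by
    intro x
    obtain ⟨r, l, m, h⟩ := exists_tr (f := f) hR hf (hS x x.2) (htri x x.2)
    exact ⟨(r, l, m), h⟩
  choose p hp using hex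
  set g : T → Set V := fun x => {u | ReflTransGen (offT R T B) (p x).2.1 u} with hg
  have hginj : Function.Injective g := by
    intro x y hxy
    by_contra hne
    have hne' : (x : ι) ≠ y := fun h => hne (Subtype.ext h)
    have hd := hdisj x x.2 y y.2 hne'
    have hx := hp x
    have hy := hp y
    have h1 : ReflTransGen (offT R T B) (p x).2.1 (p y).2.1 := by
      have : (p y).2.1 ∈ g y := ReflTransGen.refl
      rw [← hxy] at this
      exact this
    have toX : ∀ {a b} (z : T), ReflTransGen (offT R T B) a b → ReflTransGen (offB R (B z)) a b :=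
      fun z h => rtg_mono (fun _ _ hh => ⟨hh.1, hh.2 z z.2⟩) h
    have hl : (p x).2.1 = (p y).2.1 := by
      apply hf
      apply le_antisymm
      · exact hx.lmin _ hy.lD (toX x h1)
      · exact hy.lmin _ hx.lD (rtg_symm (offB_symm hR _) (toX y h1))
    have hrx : ReflTransGen R (p x).2.1 (p x).1 := by
      obtain ⟨b, hb, h2⟩ := hx.hl
      obtain ⟨b', hb', h3⟩ := hx.hr
      exact ((rtg_mono (fun _ _ hh => hh.1) h2).trans
        (rtg_mono (fun _ _ hh => hh.1) (hS x x.2 b hb b' hb'))).trans (rtg_symm hR h3)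
    have hry : ReflTransGen R (p y).2.1 (p y).1 := by
      obtain ⟨b, hb, h2⟩ := hy.hl
      obtain ⟨b', hb', h3⟩ := hy.hr
      exact ((rtg_mono (fun _ _ hh => hh.1) h2).trans
        (rtg_mono (fun _ _ hh => hh.1) (hS y y.2 b hb b' hb'))).trans (rtg_symm hR h3)
    have hr : (p x).1 = (p y).1 := by
      apply hf
      apply le_antisymm
      · exact hx.rmin _ hy.rD (by rw [hl]; exact hry)
      · exact hy.rmin _ hx.rD (by rw [← hl]; exact hrx)
    rw [← hl, ← hr] at hy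
    obtain ⟨b, hb, h2⟩ := hx.hl
    obtain ⟨s, hs, h3⟩ := hit h2 (S := B x ∪ B y) (Or.inl hb)
    have h3' : ReflTransGen (fun u v => R u v ∧ u ∉ B x ∪ B y) (p x).2.1 s :=
      rtg_mono (fun a b hh => ⟨hh.1.1, hh.2⟩) h3
    rcases hs with hs | hs
    · exact key hR hd (hS x x.2) (hS y y.2) hx hy hs h3'
    · rw [Set.union_comm] at h3'
      exact key hR hd.symm (hS y y.2) (hS x x.2) hy hx hs h3'
  have hgm : ∀ x, g x ∈ cls R T B D := by
    intro x
    obtain ⟨b, hb, h2⟩ := (hp x).hl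
    exact mem_cls (hp x).lD x.2 hb (rtg_mono (fun _ _ hh => hh.1) h2)
  have h1 : T.card = (Set.range g).ncard := by
    rw [← Set.image_univ, Set.ncard_image_of_injective _ hginj, Set.ncard_univ, Nat.card_eq_fintype_card,
      Fintype.card_coe]
  rw [h1]
  apply Set.ncard_le_ncard _ (cls_finite R T B D)
  rintro _ ⟨x, rfl⟩
  exact hgm x

end Pool.Agent.H29.HP
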